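import Pool.Agent.Lib.PolyTree.Lists
import Pool.Agent.Lib.FOLFP.Input

/-!
# Decision problems on graphs given by their adjacency matrices
-/

namespace Pool.Agent.Lib.PolyTree

open Turing Pool.Agent.Lib.FOLFP
open Pool.Agent.Lib.PolyTM (PolyFun Outputs)

set_option linter.unusedSectionVars false

/-- A polynomial-time decision on words is made by a polynomial-time machine. -/
theorem PF.polyFun_bool {Γ : Type} [Fintype Γ] [TEnc Γ] (b1 b2 : Γ → Bool)
    (hb : ∀ a, enc a = symT (b1 a) (b2 a)) {f : List Γ → Bool} (hf : PF f) :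
    PolyFun fun w : List Γ => [f w] := by
  obtain ⟨e, he, p, hp⟩ := hf
  have hw : ∀ w : List Γ, wordT b1 b2 w = enc w := by
    intro w
    induction w with
    | nil => rfl
    | cons a w ih => rw [wordT, ih, enc_lcons, hb]
  obtain ⟨F, hF, -, h⟩ := decide_polyFun b1 b2 e p
  have e1 : F = fun w : List Γ => [f w] := by
    funext w
    rw [h w (by rw [hw]; exact hp w), hw, he]
    cases f w <;> simp
  rwa [← e1]

/-- A machine computing a function of words computes it on codes of objects. -/
theorem machine_of_polyFun {α Γ : Type} (en : α → List Γ) {F : List Γ → List Bool}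
    (hF : PolyFun F) : ∃ M : TM2ComputableInPolyTime en id (fun a => F (en a)),
      ∀ k, Finite (M.tm.Γ k) := by
  obtain ⟨M, p, h1, h2⟩ := hF
  exact ⟨⟨M, p, fun a => (h2 (en a)).some⟩, h1⟩

/-- Encoding of the input symbols. -/
instance : TEnc Sym :=
  ⟨fun a => symT (decide (a = .one)) (decide (a = .sep)), by
    intro a b h
    cases a <;> cases b <;> simp_all [symT, bt]⟩

open Classical in
/-- **Machines for decision problems on graphs.** If the decision problem `D` is decided by a
polynomial-time function `f` of the adjacency matrix, then it is decided by a polynomial-time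
Turing machine. -/
theorem graph_machine (D : Graph → Prop) (f : List Sym → Bool) (hf : PF f)
    (h : ∀ I : Graph, f I.encode = true ↔ D I) :
    ∃ M : TM2ComputableInPolyTime Graph.encode id (fun I : Graph => [decide (D I)]),
      ∀ k, Finite (M.tm.Γ k) := by
  have h1 := PF.polyFun_bool (fun a : Sym => decide (a = .one)) (fun a => decide (a = .sep))
    (fun a => rfl) hf
  obtain ⟨M, hM⟩ := machine_of_polyFun Graph.encode h1
  have e : (fun I : Graph => [f I.encode]) = fun I : Graph => [decide (D I)] := by
    funext I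
    congr 1
    rw [Bool.eq_iff_iff, h I]
    simp
  rw [← e]
  exact ⟨M, hM⟩

/-! ### Reading the matrix -/

/-- Number of vertices. -/
def nOf (w : List Sym) : ℕ := (w.filter fun a => decide (a = Sym.sep)).length

/-- Adjacency. -/
def adjOf (w : List Sym) (i j : ℕ) : Bool := decide (w[i * (nOf w + 1) + j]? = some Sym.one)

/-- Pairs `i < j` of adjacent vertices. -/
def edgesOf (w : List Sym) : List (ℕ × ℕ) :=
  (List.range (nOf w)).flatMap fun i =>
    ((List.range (nOf w)).filter fun j => decide (i < j) && adjOf w i j).map fun j => (i, j)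

@[fun_prop]
theorem PF.nOf {α : Type} [TEnc α] {w : α → List Sym} (hw : PF w) :
    PF fun a => nOf (w a) := by
  unfold PolyTree.nOf
  fun_prop

@[fun_prop]
theorem PF.adjOf {α : Type} [TEnc α] {w : α → List Sym} {i j : α → ℕ} (hw : PF w) (hi : PF i)
    (hj : PF j) : PF fun a => adjOf (w a) (i a) (j a) := by
  unfold PolyTree.adjOf
  fun_prop

@[fun_prop]
theorem PF.edgesOf {α : Type} [TEnc α] {w : α → List Sym} (hw : PF w) :
    PF fun a => edgesOf (w a) := by
  unfold PolyTree.edgesOf
  fun_prop

open Classical in
/-- A row of the matrix. -/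
noncomputable def rowW (I : Graph) (i : Fin I.n) : List Sym :=
  (List.ofFn fun j : Fin I.n => if I.G.Adj i j then Sym.one else Sym.zero) ++ [Sym.sep]

theorem rowW_length (I : Graph) (i : Fin I.n) : (rowW I i).length = I.n + 1 := by
  simp [rowW]

theorem encode_eq (I : Graph) : I.encode = (List.ofFn (rowW I)).flatten := rfl

open Classical in
theorem nOf_encode (I : Graph) : nOf I.encode = I.n := by
  rw [nOf, encode_eq]
  have h1 : ∀ i, ((rowW I i).filter fun a => decide (a = Sym.sep)) = [Sym.sep] := by
    intro i
    rw [rowW, List.filter_append]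
    have : (List.ofFn fun j : Fin I.n => if I.G.Adj i j then Sym.one else Sym.zero).filter
        (fun a => decide (a = Sym.sep)) = [] := by
      rw [List.filter_eq_nil_iff]
      intro a ha
      rw [List.mem_ofFn] at ha
      obtain ⟨j, rfl⟩ := ha
      split <;> simp
    rw [this]
    simp
  rw [List.filter_flatten, List.map_ofFn]
  have h2 : (List.filter (fun a => decide (a = Sym.sep))) ∘ rowW I = fun _ => [Sym.sep] := by
    funext i
    exact h1 i
  rw [h2]
  simp

theorem flatten_getElem? {β : Type} (L : ℕ) : ∀ (l : List (List β)),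
    (∀ r ∈ l, r.length = L) → ∀ i j, j < L → l.flatten[i * L + j]? = (l[i]?).bind (·[j]?) := by
  intro l
  induction l with
  | nil => intro _ i j _; simp
  | cons r l ih =>
    intro h i j hj
    have hr : r.length = L := h r (by simp)
    cases i with
    | zero =>
      rw [Nat.zero_mul, Nat.zero_add, List.flatten_cons, List.getElem?_append_left (by omega)]
      simp
    | succ i =>
      rw [List.flatten_cons, List.getElem?_append_right (by rw [hr]; nlinarith),
        List.getElem?_cons_succ, ← ih (fun s hs => h s (by simp [hs])) i j hj, hr]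
      congr 1
      rw [Nat.succ_mul]
      omega

theorem adjOf_encode (I : Graph) (i j : Fin I.n) :
    adjOf I.encode i j = true ↔ I.G.Adj i j := by
  rw [adjOf, nOf_encode, encode_eq, flatten_getElem? (I.n + 1)]
  · simp only [List.getElem?_ofFn, decide_eq_true_eq]
    rw [dif_pos i.2]
    simp only [Option.bind_some]
    rw [rowW, List.getElem?_append_left (by simp), List.getElem?_ofFn, dif_pos j.2]
    simp only [Option.some.injEq, Fin.eta]
    split
    · rename_i h; simpa using h
    · rename_i h; simpa using h
  · intro r hr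
    rw [List.mem_ofFn] at hr
    obtain ⟨i, rfl⟩ := hr
    exact rowW_length I i
  · omega

theorem mem_edgesOf (I : Graph) (i j : ℕ) : (i, j) ∈ edgesOf I.encode ↔
    ∃ (hi : i < I.n) (hj : j < I.n), i < j ∧ I.G.Adj ⟨i, hi⟩ ⟨j, hj⟩ := by
  rw [edgesOf, nOf_encode]
  simp only [List.mem_flatMap, List.mem_range, List.mem_map, List.mem_filter,
    Bool.and_eq_true, decide_eq_true_eq, Prod.mk.injEq]
  constructor
  · rintro ⟨i', hi', j', ⟨hj', h1, h2⟩, rfl, rfl⟩
    exact ⟨hi', hj', h1, (adjOf_encode I ⟨i', hi'⟩ ⟨j', hj'⟩).1 h2⟩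
  · rintro ⟨hi, hj, h1, h2⟩
    exact ⟨i, hi, j, ⟨hj, h1, (adjOf_encode I ⟨i, hi⟩ ⟨j, hj⟩).2 h2⟩, rfl, rfl⟩

theorem edgesOf_nodup (w : List Sym) : (edgesOf w).Nodup := by
  rw [edgesOf, List.nodup_flatMap]
  refine ⟨fun i _ => ?_, ?_⟩
  · refine List.Nodup.map ?_ (List.Nodup.filter _ List.nodup_range)
    intro a b h
    simpa using h
  · refine List.Nodup.pairwise_of_forall_ne List.nodup_range ?_
    intro i _ i' _ hne
    simp only [Function.onFun, List.disjoint_iff_ne]
    intro a ha b hb hab
    subst hab
    obtain ⟨j, -, rfl⟩ := List.mem_map.1 ha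
    obtain ⟨j', -, h⟩ := List.mem_map.1 hb
    simp only [Prod.mk.injEq] at h
    exact hne h.1.symm

end Pool.Agent.Lib.PolyTree
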