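import Pool.Agent.Lib.PolyTree.Tree

/-!
# Compilation of tree expressions into the loop language
-/

namespace Pool.Agent.Lib.PolyTree

open Function T
open Pool.Agent.Lib.PolyTM (Op Cmd St)

set_option linter.unusedSectionVars false
set_option linter.unusedSimpArgs false

/-- The four stacks. -/
inductive K4
  | A | B | C | D
  deriving DecidableEq, Fintype

/-- The three flags. -/
inductive F3
  | g | h | e
  deriving DecidableEq, Fintype

section Prim

variable {V : Type} [DecidableEq V]

abbrev Cm (V : Type) := Cmd V F3 K4
abbrev Sta (V : Type) := St V F3 K4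

def nop : Cm V := .op (.set .g fun b => b .g)
def psh (k : K4) (b : Bool) : Cm V := .op (.push k fun _ => b)
def pp (k : K4) (g : F3) : Cm V := .op (.pop k g)
def mv (k k' : K4) : Cm V := .op (.move k k')

/-- Body of a scan. -/
def scanBody (act : Cm V) : Cm V :=
  .seq (pp .C .g) (.ite (fun b => b .g)
    (.seq (pp .A .h) (.seq act (.ite (fun b => b .h) (.seq (psh .C true) (psh .C true)) nop))) nop)

/-- Remove the first tree from the stack `A`, performing `act` for every symbol of its code. -/
def scan (i : V) (act : Cm V) : Cm V := .seq (psh .C true) (.loop i (scanBody act))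

def actB : Cm V := .op (.push .B fun b => b .h)
def actD : Cm V := .op (.push .D fun b => b .h)
def actBD : Cm V := .seq actB actD
def actU : Cm V := .seq (psh .D true) (psh .D false)

def drop (i : V) : Cm V := scan i nop
def dup (i : V) : Cm V := .seq (scan i actBD) (.seq (mv .B .A) (mv .D .A))
def swap (i : V) : Cm V :=
  .seq (scan i actB) (.seq (scan i actD) (.seq (mv .B .A) (mv .D .A)))
def leftC (i : V) : Cm V :=
  .seq (pp .A .g) (.ite (fun b => b .g) (.seq (scan i actB) (.seq (drop i) (mv .B .A)))
    (psh .A false))
def rightC (i : V) : Cm V := .seq (pp .A .g) (.ite (fun b => b .g) (drop i) (psh .A false))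
def szC (i : V) : Cm V := .seq (scan i actU) (.seq (psh .D false) (mv .D .A))
def cmpBody : Cm V :=
  .seq (pp .B .g) (.seq (pp .D .h) (.op (.set .e fun b => b .e && (b .g == b .h))))
def eqC (i : V) : Cm V :=
  .seq (pp .A .g) (.ite (fun b => b .g)
    (.seq (scan i actB) (.seq (scan i actD) (.seq (.op (.set .e fun _ => true))
      (.seq (.loop i cmpBody) (.ite (fun b => b .e)
        (.seq (psh .A false) (.seq (psh .A false) (psh .A true))) (psh .A false))))))
    (psh .A false))

variable {N : ℕ}

@[simp] theorem exec_nop (s : Sta V) : (nop : Cm V).exec N s = s := by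
  simp [nop, Cmd.exec, Op.exec]

/-- Effect of an action on the stacks. -/
def ActSpec (N : ℕ) (act : Cm V) (u w : Bool → List Bool) : Prop :=
  ∀ s : Sta V, (act.exec N s).st .A = s.st .A ∧ (act.exec N s).st .C = s.st .C ∧
    (act.exec N s).b .h = s.b .h ∧ (act.exec N s).st .B = u (s.b .h) ++ s.st .B ∧
    (act.exec N s).st .D = w (s.b .h) ++ s.st .D

theorem act_nop : ActSpec N (nop : Cm V) (fun _ => []) (fun _ => []) := by
  intro s; simp

theorem act_B : ActSpec N (actB : Cm V) (fun h => [h]) (fun _ => []) := by
  intro s; simp [actB, Cmd.exec, Op.exec, update]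

theorem act_D : ActSpec N (actD : Cm V) (fun _ => []) (fun h => [h]) := by
  intro s; simp [actD, Cmd.exec, Op.exec, update]

theorem act_BD : ActSpec N (actBD : Cm V) (fun h => [h]) (fun h => [h]) := by
  intro s; simp [actBD, actB, actD, Cmd.exec, Op.exec, update]

theorem act_U : ActSpec N (actU : Cm V) (fun _ => []) (fun _ => [false, true]) := by
  intro s; simp [actU, psh, Cmd.exec, Op.exec, update]

/-- A predicate on states that depends only on stacks and flags. -/
def Nov (P : Sta V → Prop) : Prop := ∀ s s' : Sta V, s'.st = s.st → s'.b = s.b → P s → P s'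

/-- The loop rule. -/
theorem loop_rule {i : V} {a : Cm V} (P : ℕ → Sta V → Prop) (hv : ∀ t, Nov (P t))
    {s : Sta V} (h0 : P 0 s) (hs : ∀ t s, t < N → P t s → P (t + 1) (a.exec N s)) :
    P N ((Cmd.loop i a).exec N s) := by
  have key : ∀ t ≤ N, P t ((fun s => (Op.inc i).exec N (a.exec N s))^[t]
      ((Op.zero i).exec N s)) := by
    intro t
    induction t with
    | zero => intro _; exact hv 0 s _ rfl rfl h0
    | succ t ih =>
      intro ht
      rw [iterate_succ_apply']
      exact hv (t + 1) (a.exec N ((fun s => (Op.inc i).exec N (a.exec N s))^[t]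
        ((Op.zero i).exec N s))) _ rfl rfl (hs t _ (by omega) (ih (by omega)))
  exact key N le_rfl

/-- Accumulated pushes. -/
def pref (f : Bool → List Bool) (l acc : List Bool) : List Bool :=
  l.foldl (fun acc h => f h ++ acc) acc

@[simp] theorem pref_nil (f : Bool → List Bool) (acc : List Bool) : pref f [] acc = acc := rfl

theorem pref_snoc (f : Bool → List Bool) (l acc : List Bool) (h : Bool) :
    pref f (l ++ [h]) acc = f h ++ pref f l acc := by
  simp [pref]

@[simp] theorem pref_none (l acc : List Bool) : pref (fun _ => []) l acc = acc := by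
  induction l generalizing acc with
  | nil => rfl
  | cons a l ih => exact ih acc

@[simp] theorem pref_one (l acc : List Bool) : pref (fun h => [h]) l acc = l.reverse ++ acc := by
  induction l generalizing acc with
  | nil => rfl
  | cons a l ih =>
    have := ih (a :: acc)
    simp only [pref, List.foldl_cons, List.reverse_cons, List.append_assoc] at this ⊢
    exact this

theorem num_code (n : ℕ) : (num n).code = (List.replicate n [true, false]).flatten ++ [false] := by
  induction n with
  | zero => rfl
  | succ n ih => simp [num, code, ih, List.replicate_succ]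

theorem pref_num (l : List Bool) (acc : List Bool) :
    pref (fun _ => [false, true]) l acc =
      (List.replicate l.length [false, true]).flatten ++ acc := by
  induction l generalizing acc with
  | nil => rfl
  | cons a l ih =>
    have := ih (false :: true :: acc)
    simp only [pref, List.foldl_cons, List.cons_append, List.nil_append] at this ⊢
    rw [this]
    rw [List.length_cons, List.replicate_succ']
    simp

theorem rev_num (n : ℕ) : ((List.replicate n [false, true]).flatten).reverse =
    (List.replicate n [true, false]).flatten := by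
  induction n with
  | zero => rfl
  | succ n ih =>
    rw [List.replicate_succ', List.replicate_succ]
    simp [ih]

/-- Pending trees and their codes. -/
def codes (xs : List T) : List Bool := xs.flatMap code

@[simp] theorem codes_cons (x : T) (xs : List T) : codes (x :: xs) = x.code ++ codes xs := rfl
@[simp] theorem codes_nil : codes [] = [] := rfl

/-- Invariant of a scan. -/
def SInv (u w : Bool → List Bool) (x : T) (rest B0 D0 : List Bool) (t : ℕ) (s : Sta V) : Prop :=
  ∃ (xs : List T) (done : List Bool), done ++ codes xs = x.code ∧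
    s.st .A = codes xs ++ rest ∧ s.st .C = List.replicate xs.length true ∧
    s.st .B = pref u done B0 ∧ s.st .D = pref w done D0 ∧ (codes xs).length ≤ x.size - t

theorem scanBody_spec {act : Cm V} {u w : Bool → List Bool} (hact : ActSpec N act u w)
    (x : T) (rest B0 D0 : List Bool) (t : ℕ) (s : Sta V) (hs : SInv u w x rest B0 D0 t s) :
    SInv u w x rest B0 D0 (t + 1) ((scanBody act).exec N s) := by
  obtain ⟨xs, done, h1, h2, h3, h4, h5, h6⟩ := hs
  cases xs with
  | nil =>
    refine ⟨[], done, h1, ?_, ?_, ?_, ?_, ?_⟩
    · simp [scanBody, pp, Cmd.exec, Op.exec, h3, update, h2]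
    · simp [scanBody, pp, Cmd.exec, Op.exec, h3, update]
    · simp [scanBody, pp, Cmd.exec, Op.exec, h3, update, h4]
    · simp [scanBody, pp, Cmd.exec, Op.exec, h3, update, h5]
    · simp
  | cons y xs =>
    set s1 := (pp .C .g : Cm V).exec N s with hs1
    set s2 := (pp .A .h : Cm V).exec N s1 with hs2
    set s3 := act.exec N s2 with hs3
    have c1 : s1.b .g = true := by simp [hs1, pp, Cmd.exec, Op.exec, h3, List.replicate_succ]
    have c2 : s1.st .C = List.replicate xs.length true := by
      simp [hs1, pp, Cmd.exec, Op.exec, h3, List.replicate_succ]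
    have c3 : s1.st .A = codes (y :: xs) ++ rest := by
      simp [hs1, pp, Cmd.exec, Op.exec, update, h2]
    have c4 : s1.st .B = pref u done B0 := by simp [hs1, pp, Cmd.exec, Op.exec, update, h4]
    have c5 : s1.st .D = pref w done D0 := by simp [hs1, pp, Cmd.exec, Op.exec, update, h5]
    have d2 : s2.st .C = List.replicate xs.length true := by
      simp [hs2, pp, Cmd.exec, Op.exec, update, c2]
    have d4 : s2.st .B = pref u done B0 := by simp [hs2, pp, Cmd.exec, Op.exec, update, c4]
    have d5 : s2.st .D = pref w done D0 := by simp [hs2, pp, Cmd.exec, Op.exec, update, c5]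
    obtain ⟨a1, a2, a3, a4, a5⟩ := hact s2
    rw [← hs3] at a1 a2 a3 a4 a5
    cases y with
    | nil =>
      have d1 : s2.b .h = false := by
        simp [hs2, pp, Cmd.exec, Op.exec, c3, codes_cons, code]
      have d3 : s2.st .A = codes xs ++ rest := by
        simp [hs2, pp, Cmd.exec, Op.exec, update, c3, codes_cons, code]
      rw [d1] at a3 a4 a5
      have he : (scanBody act).exec N s = s3 := by
        simp only [scanBody, Cmd.exec]
        simp only [← hs1, c1, if_true]
        simp only [← hs2, ← hs3, a3, Bool.false_eq_true, if_false]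
        exact exec_nop s3
      rw [he]
      refine ⟨xs, done ++ [false], ?_, ?_, ?_, ?_, ?_, ?_⟩
      · rw [← h1]; simp [code]
      · rw [a1, d3]
      · rw [a2, d2]
      · rw [a4, d4, pref_snoc]
      · rw [a5, d5, pref_snoc]
      · simp only [codes_cons, code, List.length_append, List.length_cons, List.length_nil] at h6
        omega
    | node l r =>
      have d1 : s2.b .h = true := by
        simp [hs2, pp, Cmd.exec, Op.exec, c3, codes_cons, code]
      have d3 : s2.st .A = codes (l :: r :: xs) ++ rest := by
        simp [hs2, pp, Cmd.exec, Op.exec, update, c3, codes_cons, code]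
      rw [d1] at a3 a4 a5
      have he : (scanBody act).exec N s = (psh .C true : Cm V).exec N ((psh .C true : Cm V).exec N s3) := by
        simp only [scanBody, Cmd.exec]
        simp only [← hs1, c1, if_true]
        simp only [← hs2, ← hs3, a3, if_true]
      rw [he]
      refine ⟨l :: r :: xs, done ++ [true], ?_, ?_, ?_, ?_, ?_, ?_⟩
      · rw [← h1]; simp [code]
      · simp only [psh, Cmd.exec, Op.exec, update, reduceCtorEq, dite_false]
        rw [a1, d3]
      · simp only [psh, Cmd.exec, Op.exec, update_self]
        rw [a2, d2]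
        simp [List.replicate_succ]
      · simp only [psh, Cmd.exec, Op.exec, update, reduceCtorEq, dite_false]
        rw [a4, d4, pref_snoc]
      · simp only [psh, Cmd.exec, Op.exec, update, reduceCtorEq, dite_false]
        rw [a5, d5, pref_snoc]
      · simp only [codes_cons, code, List.length_append, List.length_cons, List.length_nil] at h6 ⊢
        omega

theorem scan_spec {act : Cm V} {u w : Bool → List Bool} (hact : ActSpec N act u w) (i : V)
    (x : T) (rest : List Bool) (s : Sta V) (hA : s.st .A = x.code ++ rest) (hC : s.st .C = [])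
    (hN : x.size ≤ N) :
    ((scan i act).exec N s).st .A = rest ∧ ((scan i act).exec N s).st .C = [] ∧
    ((scan i act).exec N s).st .B = pref u x.code (s.st .B) ∧
    ((scan i act).exec N s).st .D = pref w x.code (s.st .D) := by
  have key := loop_rule (N := N) (i := i) (a := scanBody act)
    (SInv u w x rest (s.st .B) (s.st .D))
    (by
      rintro t s1 s2 h1 h2 ⟨xs, done, g1, g2, g3, g4, g5, g6⟩
      exact ⟨xs, done, g1, by rw [h1, g2], by rw [h1, g3], by rw [h1, g4], by rw [h1, g5], g6⟩)
    (s := (psh .C true : Cm V).exec N s)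
    ⟨[x], [], by simp, by simp [psh, Cmd.exec, Op.exec, update, hA],
      by simp [psh, Cmd.exec, Op.exec, update, hC], by simp [psh, Cmd.exec, Op.exec, update],
      by simp [psh, Cmd.exec, Op.exec, update], by simp⟩
    (fun t s' _ h => scanBody_spec hact x rest _ _ t s' h)
  obtain ⟨xs, done, g1, g2, g3, g4, g5, g6⟩ := key
  have h0 : xs = [] := by
    cases xs with
    | nil => rfl
    | cons y xs =>
      exfalso
      simp only [codes_cons, List.length_append, length_code] at g6
      have := y.size_pos
      omega
  subst h0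
  simp only [codes_nil, List.append_nil] at g1
  subst g1
  exact ⟨g2, g3, g4, g5⟩

/-- The state holds the given word on `A` and the other stacks are empty. -/
def Good (l : List Bool) (s : Sta V) : Prop :=
  s.st .A = l ∧ s.st .B = [] ∧ s.st .C = [] ∧ s.st .D = []

theorem Good.nov (l : List Bool) : Nov (Good l : Sta V → Prop) := by
  rintro s s' h _ ⟨h1, h2, h3, h4⟩
  exact ⟨by rw [h, h1], by rw [h, h2], by rw [h, h3], by rw [h, h4]⟩

theorem drop_spec (i : V) (x : T) (rest : List Bool) (s : Sta V) (hs : Good (x.code ++ rest) s)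
    (hN : x.size ≤ N) : Good rest ((drop i).exec N s) := by
  obtain ⟨h1, h2, h3, h4⟩ := hs
  obtain ⟨g1, g2, g3, g4⟩ := scan_spec act_nop i x rest s h1 h3 hN
  exact ⟨g1, by rw [drop, g3, h2]; simp, g2, by rw [drop, g4, h4]; simp⟩

theorem psh_spec (b : Bool) (l : List Bool) (s : Sta V) (hs : Good l s) :
    Good (b :: l) ((psh .A b : Cm V).exec N s) := by
  obtain ⟨h1, h2, h3, h4⟩ := hs
  refine ⟨?_, ?_, ?_, ?_⟩ <;> simp [psh, Cmd.exec, Op.exec, update, h1, h2, h3, h4]

theorem pp_spec (b : Bool) (l : List Bool) (s : Sta V) (hs : Good (b :: l) s) :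
    Good l ((pp .A .g : Cm V).exec N s) ∧ ((pp .A .g : Cm V).exec N s).b .g = b := by
  obtain ⟨h1, h2, h3, h4⟩ := hs
  refine ⟨⟨?_, ?_, ?_, ?_⟩, ?_⟩ <;> simp [pp, Cmd.exec, Op.exec, update, h1, h2, h3, h4]

/-- Moving both auxiliary stacks back. -/
theorem mv_spec (lA lB lD : List Bool) (s : Sta V) (hA : s.st .A = lA) (hB : s.st .B = lB)
    (hC : s.st .C = []) (hD : s.st .D = lD) :
    Good (lD.reverse ++ (lB.reverse ++ lA))
      ((mv .D .A : Cm V).exec N ((mv .B .A : Cm V).exec N s)) := by
  refine ⟨?_, ?_, ?_, ?_⟩ <;> simp [mv, Cmd.exec, Op.exec, update, hA, hB, hC, hD]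

theorem dup_spec (i : V) (x : T) (rest : List Bool) (s : Sta V) (hs : Good (x.code ++ rest) s)
    (hN : x.size ≤ N) : Good (x.code ++ (x.code ++ rest)) ((dup i).exec N s) := by
  obtain ⟨h1, h2, h3, h4⟩ := hs
  obtain ⟨g1, g2, g3, g4⟩ := scan_spec act_BD i x rest s h1 h3 hN
  have := mv_spec (N := N) _ _ _ _ g1 g3 g2 g4
  simpa [dup, Cmd.exec, h2, h4] using this

theorem swap_spec (i : V) (x y : T) (rest : List Bool) (s : Sta V)
    (hs : Good (x.code ++ (y.code ++ rest)) s) (hx : x.size ≤ N) (hy : y.size ≤ N) :
    Good (y.code ++ (x.code ++ rest)) ((swap i).exec N s) := by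
  obtain ⟨h1, h2, h3, h4⟩ := hs
  obtain ⟨g1, g2, g3, g4⟩ := scan_spec act_B i x _ s h1 h3 hx
  obtain ⟨e1, e2, e3, e4⟩ := scan_spec act_D i y _ _ g1 g2 hy
  have := mv_spec (N := N) _ _ _ _ e1 e3 e2 e4
  simpa [swap, Cmd.exec, h2, h4, g3, g4] using this

theorem left_spec (i : V) (x : T) (rest : List Bool) (s : Sta V) (hs : Good (x.code ++ rest) s)
    (hN : x.size ≤ N) : Good (x.left.code ++ rest) ((leftC i).exec N s) := by
  cases x with
  | nil =>
    obtain ⟨h1, h2⟩ := pp_spec (N := N) _ _ s hs
    have := psh_spec (N := N) false _ _ h1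
    simpa [leftC, Cmd.exec, h2, left, code] using this
  | node l r =>
    obtain ⟨h1, h2⟩ := pp_spec (N := N) true (l.code ++ r.code ++ rest) s hs
    have hl : l.size ≤ N := by simp only [size] at hN; omega
    have hr : r.size ≤ N := by simp only [size] at hN; omega
    obtain ⟨a1, a2, a3, a4⟩ := h1
    rw [List.append_assoc] at a1
    obtain ⟨g1, g2, g3, g4⟩ := scan_spec act_B i l _ _ a1 a3 hl
    obtain ⟨e1, e2, e3, e4⟩ := scan_spec act_nop i r _ _ g1 g2 hr
    rw [g3, a2] at e3
    rw [g4, a4] at e4
    simp only [pref_none, pref_one, List.append_nil] at e3 e4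
    have he : (leftC i).exec N s = (mv .B .A : Cm V).exec N ((scan i nop).exec N
        ((scan i actB).exec N ((pp .A .g : Cm V).exec N s))) := by
      simp only [leftC, Cmd.exec]
      rw [if_pos h2]
      rfl
    rw [he]
    refine ⟨?_, ?_, ?_, ?_⟩ <;>
      simp [mv, Cmd.exec, Op.exec, update, e1, e2, e3, e4, left]

theorem right_spec (i : V) (x : T) (rest : List Bool) (s : Sta V) (hs : Good (x.code ++ rest) s)
    (hN : x.size ≤ N) : Good (x.right.code ++ rest) ((rightC i).exec N s) := by
  cases x with
  | nil =>
    obtain ⟨h1, h2⟩ := pp_spec (N := N) _ _ s hs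
    have := psh_spec (N := N) false _ _ h1
    simpa [rightC, Cmd.exec, h2, right, code] using this
  | node l r =>
    obtain ⟨h1, h2⟩ := pp_spec (N := N) true (l.code ++ r.code ++ rest) s hs
    have hl : l.size ≤ N := by simp only [size] at hN; omega
    rw [List.append_assoc] at h1
    have := drop_spec i l _ _ h1 hl
    simpa [rightC, Cmd.exec, h2, right] using this

theorem sz_spec (i : V) (x : T) (rest : List Bool) (s : Sta V) (hs : Good (x.code ++ rest) s)
    (hN : x.size ≤ N) : Good ((num x.size).code ++ rest) ((szC i).exec N s) := by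
  obtain ⟨h1, h2, h3, h4⟩ := hs
  obtain ⟨g1, g2, g3, g4⟩ := scan_spec act_U i x rest s h1 h3 hN
  rw [h2] at g3
  rw [h4, pref_num] at g4
  have he : (szC i).exec N s = (mv .D .A : Cm V).exec N ((psh .D false : Cm V).exec N
      ((scan i actU).exec N s)) := rfl
  rw [he]
  refine ⟨?_, ?_, ?_, ?_⟩
  · simp [mv, psh, Cmd.exec, Op.exec, update, g1, g4, num_code, rev_num]
  · simp [mv, psh, Cmd.exec, Op.exec, update, g3]
  · simp [mv, psh, Cmd.exec, Op.exec, update, g2]
  · simp [mv, psh, Cmd.exec, Op.exec, update]

/-- Padded comparison of reversed codes. -/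
theorem code_eq_of_pad {x y : T} {N : ℕ} (hx : x.size ≤ N) (hy : y.size ≤ N)
    (h : ∀ i < N, (x.code.reverse)[i]?.getD false = (y.code.reverse)[i]?.getD false) :
    x = y := by
  have hxc := length_code x
  have hyc := length_code y
  have hlen : ∀ {x y : T}, x.size ≤ N → y.size ≤ N → 
      (∀ i < N, (x.code.reverse)[i]?.getD false = (y.code.reverse)[i]?.getD false) →
      y.size ≤ x.size := by
    intro x y hx hy h
    by_contra hlt
    push Not at hlt
    have hxc := length_code x
    have hyc := length_code y
    have hxp := x.size_pos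
    cases y with
    | nil => simp only [size] at hlt; omega
    | node l r =>
      have h1 := h ((T.node l r).size - 1) (by omega)
      rw [List.getElem?_eq_none (by rw [List.length_reverse, hxc]; omega)] at h1
      rw [List.getElem?_reverse (by rw [hyc]; omega)] at h1
      rw [hyc, show (T.node l r).size - 1 - ((T.node l r).size - 1) = 0 by omega] at h1
      simp [code] at h1
  have h1 := hlen hx hy h
  have h2 := hlen hy hx (fun i hi => (h i hi).symm)
  have h3 : x.size = y.size := le_antisymm h2 h1
  apply code_inj
  apply List.reverse_injective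
  apply List.ext_getElem? 
  intro i
  by_cases hi : i < x.size
  · have := h i (by omega)
    have e1 : i < x.code.reverse.length := by rw [List.length_reverse, hxc]; exact hi
    have e2 : i < y.code.reverse.length := by rw [List.length_reverse, hyc]; omega
    rw [List.getElem?_eq_getElem e1, List.getElem?_eq_getElem e2] at this ⊢
    simpa using this
  · rw [List.getElem?_eq_none (by rw [List.length_reverse, hxc]; omega),
      List.getElem?_eq_none (by rw [List.length_reverse, hyc]; omega)]

/-- Invariant of the comparison. -/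
def CInv (x y : T) (rest : List Bool) (t : ℕ) (s : Sta V) : Prop :=
  s.st .A = rest ∧ s.st .C = [] ∧ s.st .B = x.code.reverse.drop t ∧
    s.st .D = y.code.reverse.drop t ∧
    s.b .e = decide (∀ i < t, (x.code.reverse)[i]?.getD false = (y.code.reverse)[i]?.getD false)

theorem cmp_spec (x y : T) (rest : List Bool) (t : ℕ) (s : Sta V) (hs : CInv x y rest t s) :
    CInv x y rest (t + 1) ((cmpBody : Cm V).exec N s) := by
  obtain ⟨h1, h2, h3, h4, h5⟩ := hs
  have e1 : ∀ l : List Bool, (l.drop t).headD false = l[t]?.getD false := by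
    intro l
    rw [List.headD_eq_head?_getD, List.head?_drop]
  have e2 : ∀ l : List Bool, (l.drop t).tail = l.drop (t + 1) := by
    intro l; rw [List.tail_drop]
  refine ⟨?_, ?_, ?_, ?_, ?_⟩
  · simp [cmpBody, pp, Cmd.exec, Op.exec, update, h1]
  · simp [cmpBody, pp, Cmd.exec, Op.exec, update, h2]
  · simp [cmpBody, pp, Cmd.exec, Op.exec, update, h3, e2]
  · simp [cmpBody, pp, Cmd.exec, Op.exec, update, h4, e2]
  · simp only [cmpBody, pp, Cmd.exec, Op.exec, update, reduceCtorEq, dite_false, dite_true,
      h3, h4, h5, e1]
    rw [Bool.eq_iff_iff]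
    simp only [Bool.and_eq_true, decide_eq_true_eq, beq_iff_eq]
    constructor
    · rintro ⟨g1, g2⟩ i hi
      rcases Nat.lt_succ_iff_lt_or_eq.1 hi with h | h
      · exact g1 i h
      · subst h; exact g2
    · intro g
      exact ⟨fun i hi => g i (by omega), g t (by omega)⟩

theorem eq_spec (i : V) (x : T) (rest : List Bool) (s : Sta V) (hs : Good (x.code ++ rest) s)
    (hN : x.size ≤ N) : Good ((Ex.eq.eval x).code ++ rest) ((eqC i).exec N s) := by
  cases x with
  | nil =>
    obtain ⟨h1, h2⟩ := pp_spec (N := N) _ _ s hs
    have := psh_spec (N := N) false _ _ h1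
    simpa [eqC, Cmd.exec, h2, Ex.eval, code] using this
  | node l r =>
    obtain ⟨h1, h2⟩ := pp_spec (N := N) true (l.code ++ r.code ++ rest) s hs
    have hl : l.size ≤ N := by simp only [size] at hN; omega
    have hr : r.size ≤ N := by simp only [size] at hN; omega
    obtain ⟨a1, a2, a3, a4⟩ := h1
    rw [List.append_assoc] at a1
    obtain ⟨g1, g2, g3, g4⟩ := scan_spec act_B i l _ _ a1 a3 hl
    obtain ⟨e1, e2, e3, e4⟩ := scan_spec act_D i r _ _ g1 g2 hr
    rw [g3, a2] at e3
    rw [g4, a4] at e4
    simp only [pref_none, pref_one, List.append_nil] at e3 e4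
    set s1 := (scan i actD : Cm V).exec N ((scan i actB).exec N ((pp .A .g : Cm V).exec N s))
      with hs1
    set s2 := (Cmd.op (.set .e fun _ => true) : Cm V).exec N s1 with hs2
    set s3 := (Cmd.loop i cmpBody : Cm V).exec N s2 with hs3
    have key : CInv l r rest N s3 := by
      refine loop_rule (CInv l r rest) ?_ ?_ (fun t s _ h => cmp_spec l r rest t s h)
      · rintro t u u' k1 k2 ⟨m1, m2, m3, m4, m5⟩
        exact ⟨by rw [k1, m1], by rw [k1, m2], by rw [k1, m3], by rw [k1, m4], by rw [k2, m5]⟩
      · refine ⟨?_, ?_, ?_, ?_, ?_⟩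
        · simp [hs2, Cmd.exec, Op.exec, e1]
        · simp [hs2, Cmd.exec, Op.exec, e2]
        · simp [hs2, Cmd.exec, Op.exec, e3]
        · simp [hs2, Cmd.exec, Op.exec, e4]
        · simp [hs2, Cmd.exec, Op.exec]
    obtain ⟨m1, m2, m3, m4, m5⟩ := key
    have hg : Good rest s3 := by
      refine ⟨m1, ?_, m2, ?_⟩
      · rw [m3]; apply List.drop_eq_nil_of_le; rw [List.length_reverse, length_code]; exact hl
      · rw [m4]; apply List.drop_eq_nil_of_le; rw [List.length_reverse, length_code]; exact hr
    have he : (eqC i).exec N s = (Cmd.ite (fun b => b .e)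
        (.seq (psh .A false) (.seq (psh .A false) (psh .A true))) (psh .A false) : Cm V).exec
          N s3 := by
      simp only [eqC, Cmd.exec]
      rw [if_pos h2]
      rfl
    rw [he]
    by_cases hlr : l = r
    · have hb : s3.b .e = true := by rw [m5, hlr]; simp
      have q1 := psh_spec (N := N) false _ _ hg
      have q2 := psh_spec (N := N) false _ _ q1
      have q3 := psh_spec (N := N) true _ _ q2
      simpa [Cmd.exec, hb, Ex.eval, hlr, code] using q3
    · have hb : s3.b .e = false := by
        rw [m5]
        exact decide_eq_false (fun h => hlr (code_eq_of_pad hl hr h))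
      have q1 := psh_spec (N := N) false _ _ hg
      simpa [Cmd.exec, hb, Ex.eval, hlr, code] using q1

end Prim

/-! ### Compilation -/

/-- Nesting depth of iterations. -/
def Ex.depth : Ex → ℕ
  | .pair a b => max a.depth b.depth
  | .comp a b => max a.depth b.depth
  | .ite c a b => max c.depth (max a.depth b.depth)
  | .iter a => a.depth + 1
  | _ => 0

/-- Loop counter number `k`. -/
def ctr (D k : ℕ) : Fin (D + 1) := Fin.ofNat (D + 1) k

theorem ctr_val {D k : ℕ} (h : k ≤ D) : (ctr D k).val = k := by
  simp only [ctr, Fin.ofNat]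
  exact Nat.mod_eq_of_lt (by omega)

/-- Body of the compiled iteration. -/
def iterBody (D k : ℕ) (a : Cm (Fin (D + 1))) : Cm (Fin (D + 1)) :=
  .seq (pp .A .g) (.ite (fun b => b .g)
    (.seq (drop (ctr D k)) (.seq (swap (ctr D k)) (.seq a (swap (ctr D k))))) (psh .A false))

/-- The compiler. -/
def comp (D : ℕ) : ℕ → Ex → Cm (Fin (D + 1))
  | _, .id => nop
  | k, .nil => .seq (drop (ctr D k)) (psh .A false)
  | k, .left => leftC (ctr D k)
  | k, .right => rightC (ctr D k)
  | k, .sz => szC (ctr D k)
  | k, .eq => eqC (ctr D k)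
  | k, .pair a b => .seq (dup (ctr D k)) (.seq (comp D k b) (.seq (swap (ctr D k))
      (.seq (comp D k a) (psh .A true))))
  | k, .comp a b => .seq (comp D k b) (comp D k a)
  | k, .ite c a b => .seq (dup (ctr D k)) (.seq (comp D k c) (.seq (pp .A .g)
      (.ite (fun b => b .g)
        (.seq (psh .A true) (.seq (drop (ctr D k)) (comp D k a))) (comp D k b))))
  | k, .iter a => .seq (pp .A .g) (.ite (fun b => b .g)
      (.seq (.loop (ctr D k) (iterBody D (k + 1) (comp D (k + 1) a))) (pp .A .g))
      (psh .A false))

theorem comp_spec (D N : ℕ) (e : Ex) : ∀ (k : ℕ) (x : T) (rest : List Bool)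
    (s : Sta (Fin (D + 1))), Good (x.code ++ rest) s → e.msz x ≤ N →
    Good ((e.eval x).code ++ rest) ((comp D k e).exec N s) := by
  induction e with
  | id => intro k x rest s hs _; simpa [comp, Ex.eval] using hs
  | nil =>
    intro k x rest s hs hN
    have h1 := drop_spec (ctr D k) x rest s hs hN
    exact psh_spec false _ _ h1
  | left => intro k x rest s hs hN; exact left_spec _ x rest s hs hN
  | right => intro k x rest s hs hN; exact right_spec _ x rest s hs hN
  | sz =>
    intro k x rest s hs hN
    exact sz_spec _ x rest s hs (le_trans (by simp only [Ex.msz]; omega) hN)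
  | eq =>
    intro k x rest s hs hN
    exact eq_spec _ x rest s hs (le_trans (by simp only [Ex.msz]; omega) hN)
  | pair a b iha ihb =>
    intro k x rest s hs hN
    simp only [Ex.msz] at hN
    have hx := a.size_le_msz x
    have hb := b.size_eval_le_msz x
    have h1 := dup_spec (N := N) (ctr D k) x rest s hs (by omega)
    have h2 := ihb k x _ _ h1 (by omega)
    have h3 := swap_spec (N := N) (ctr D k) _ x rest _ h2 (by omega) (by omega)
    have h4 := iha k x _ _ h3 (by omega)
    have h5 := psh_spec (N := N) true _ _ h4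
    rw [← List.append_assoc] at h5
    exact h5
  | comp a b iha ihb =>
    intro k x rest s hs hN
    simp only [Ex.msz] at hN
    have h1 := ihb k x rest s hs ((le_max_left _ _).trans hN)
    exact iha k _ rest _ h1 ((le_max_right _ _).trans hN)
  | ite c a b ihc iha ihb =>
    intro k x rest s hs hN
    simp only [Ex.msz] at hN
    have hc : c.msz x ≤ N := (le_max_left _ _).trans hN
    have hx := c.size_le_msz x
    have hcx := c.size_eval_le_msz x
    have h1 := dup_spec (N := N) (ctr D k) x rest s hs (by omega)
    have h2 := ihc k x _ _ h1 hc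
    set s2 := (comp D k c).exec N ((dup (ctr D k)).exec N s) with hs2
    by_cases h : c.eval x = .nil
    · rw [h] at h2
      obtain ⟨h3, h4⟩ := pp_spec (N := N) false _ _ h2
      rw [if_pos h] at hN
      have h5 := ihb k x rest _ h3 ((le_max_right _ _).trans hN)
      simp only [Ex.eval, if_pos h]
      simpa [comp, Cmd.exec, ← hs2, h4] using h5
    · rw [if_neg h] at hN
      obtain ⟨l, r, hlr⟩ : ∃ l r, c.eval x = .node l r := by
        cases hh : c.eval x with
        | nil => exact absurd hh h
        | node l r => exact ⟨l, r, rfl⟩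
      have h2' : Good (true :: (l.code ++ r.code ++ (x.code ++ rest))) s2 := by
        rw [hlr] at h2; exact h2
      obtain ⟨h3, h4⟩ := pp_spec (N := N) true _ _ h2'
      have h5 := psh_spec (N := N) true _ _ h3
      have h5' : Good ((c.eval x).code ++ (x.code ++ rest))
          ((psh .A true : Cm (Fin (D + 1))).exec N ((pp .A .g : Cm _).exec N s2)) := by
        rw [hlr]; exact h5
      have h6 := drop_spec (N := N) (ctr D k) _ _ _ h5' (by omega)
      have h7 := iha k x rest _ h6 ((le_max_right _ _).trans hN)
      simp only [Ex.eval, if_neg h]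
      have he : (comp D k (.ite c a b)).exec N s = (comp D k a).exec N ((drop (ctr D k)).exec N
          ((psh .A true : Cm (Fin (D + 1))).exec N ((pp .A .g : Cm _).exec N s2))) := by
        simp only [comp, Cmd.exec, ← hs2]
        rw [if_pos h4]
      rw [he]
      exact h7
  | iter a iha =>
    intro k x rest s hs hN
    cases x with
    | nil =>
      obtain ⟨h1, h2⟩ := pp_spec (N := N) false _ s hs
      have := psh_spec (N := N) false _ _ h1
      have he : (comp D k (.iter a)).exec N s = (psh .A false : Cm (Fin (D + 1))).exec N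
          ((pp .A .g : Cm _).exec N s) := by
        simp only [comp, Cmd.exec, h2, Bool.false_eq_true, if_false]
      rw [he]
      exact this
    | node n x0 =>
      obtain ⟨h1, h2⟩ := pp_spec (N := N) true (n.code ++ x0.code ++ rest) s hs
      set s1 := (pp .A .g : Cm (Fin (D + 1))).exec N s with hs1
      have hsz : (T.node n x0).size ≤ N := (Ex.size_le_msz (.iter a) _).trans hN
      simp only [size] at hsz
      let P : ℕ → Sta (Fin (D + 1)) → Prop := fun t u =>
        ∃ m : T, m.len = n.len - t ∧ m.size ≤ n.size ∧
          Good (m.code ++ (((a.eval)^[min t n.len] x0).code ++ rest)) u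
      have key : P N
          ((Cmd.loop (ctr D k) (iterBody D (k + 1) (comp D (k + 1) a))).exec N s1) := by
        refine loop_rule P ?_ ?_ ?_
        · rintro t u u' k1 k2 ⟨m, m1, m2, m3⟩
          exact ⟨m, m1, m2, Good.nov _ u u' k1 k2 m3⟩
        · refine ⟨n, by simp, le_rfl, ?_⟩
          rw [List.append_assoc] at h1
          simpa using h1
        · rintro t u _ ⟨m, m1, m2, m3⟩
          cases m with
          | nil =>
            simp only [len] at m1
            obtain ⟨q1, q2⟩ := pp_spec (N := N) false _ u m3
            have q3 := psh_spec (N := N) false _ _ q1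
            refine ⟨.nil, by simp only [len]; omega, n.size_pos, ?_⟩
            have e1 : min (t + 1) n.len = min t n.len := by omega
            rw [e1]
            simpa [iterBody, Cmd.exec, q2, code] using q3
          | node l r =>
            simp only [len] at m1
            simp only [size] at m2
            have ht : t < n.len := by omega
            obtain ⟨q1, q2⟩ := pp_spec (N := N) true (l.code ++ r.code ++
              (((a.eval)^[min t n.len] x0).code ++ rest)) u m3
            rw [List.append_assoc] at q1
            have e0 : min t n.len = t := by omega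
            have e1 : min (t + 1) n.len = t + 1 := by omega
            rw [e0] at q1
            have hm := Ex.msz_iter_le hN ht
            have hm1 := (a.size_le_msz _).trans hm
            have hm2 := (a.size_eval_le_msz _).trans hm
            have q3 := drop_spec (N := N) (ctr D (k + 1)) l _ _ q1 (by omega)
            have q4 := swap_spec (N := N) (ctr D (k + 1)) r _ _ _ q3 (by omega) hm1
            have q5 := iha (k + 1) _ _ _ q4 hm
            have q6 := swap_spec (N := N) (ctr D (k + 1)) _ r _ _ q5 hm2 (by omega)
            refine ⟨r, by omega, by omega, ?_⟩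
            rw [e1, iterate_succ_apply']
            have he : (iterBody D (k + 1) (comp D (k + 1) a)).exec N u =
                (swap (ctr D (k + 1))).exec N ((comp D (k + 1) a).exec N
                  ((swap (ctr D (k + 1))).exec N ((drop (ctr D (k + 1))).exec N
                    ((pp .A .g : Cm (Fin (D + 1))).exec N u)))) := by
              simp only [iterBody, Cmd.exec]
              rw [if_pos q2]
            rw [he]
            exact q6
      obtain ⟨m, m1, m2, m3⟩ := key
      have hle := n.len_le_size
      have hm0 : m = .nil := by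
        cases m with
        | nil => rfl
        | node l r => simp only [len] at m1; omega
      subst hm0
      have e2 : min N n.len = n.len := by omega
      rw [e2] at m3
      obtain ⟨q1, -⟩ := pp_spec (N := N) false _ _ m3
      have he : (comp D k (.iter a)).exec N s = (pp .A .g : Cm (Fin (D + 1))).exec N
          ((Cmd.loop (ctr D k) (iterBody D (k + 1) (comp D (k + 1) a))).exec N s1) := by
        simp only [comp, Cmd.exec, ← hs1]
        rw [if_pos h2]
      rw [he]
      exact q1

/-! ### Well-formedness -/

section WF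

variable {V : Type} [DecidableEq V]

theorem wf_scan (i : V) (act : Cm V) (h : act.WF) (hw : act.wv = ∅) : (scan i act).WF := by
  refine ⟨trivial, ?_, ?_⟩
  · simp [scanBody, Cmd.wv, Op.wv, pp, psh, nop, hw]
  · simp [scanBody, Cmd.WF, Op.WF, pp, psh, nop, h]

theorem wv_scan (i : V) (act : Cm V) (hw : act.wv = ∅) : (scan i act).wv = {i} := by
  simp [scan, scanBody, Cmd.wv, Op.wv, pp, psh, nop, hw]

theorem wf_nop : (nop : Cm V).WF := trivial
theorem wv_nop : (nop : Cm V).wv = ∅ := rfl
theorem wf_drop (i : V) : (drop i).WF := wf_scan i _ trivial rfl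
theorem wv_drop (i : V) : (drop i).wv = {i} := wv_scan i _ rfl

theorem wf_dup (i : V) : (dup i).WF :=
  ⟨wf_scan i _ ⟨trivial, trivial⟩ (by simp [actBD, actB, actD, Cmd.wv, Op.wv]),
    by simp [mv, Cmd.WF, Op.WF], by simp [mv, Cmd.WF, Op.WF]⟩

theorem wv_dup (i : V) : (dup i).wv = {i} := by
  simp only [dup, Cmd.wv]
  rw [wv_scan i _ (by simp [actBD, actB, actD, Cmd.wv, Op.wv])]
  simp [mv, Cmd.wv, Op.wv]

theorem wf_swap (i : V) : (swap i).WF :=
  ⟨wf_scan i _ trivial rfl, wf_scan i _ trivial rfl,
    by simp [mv, Cmd.WF, Op.WF], by simp [mv, Cmd.WF, Op.WF]⟩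

theorem wv_swap (i : V) : (swap i).wv = {i} := by
  simp only [swap, Cmd.wv]
  rw [wv_scan i _ rfl, wv_scan i _ rfl]
  simp [mv, Cmd.wv, Op.wv]

theorem wf_left (i : V) : (leftC i).WF :=
  ⟨trivial, ⟨wf_scan i _ trivial rfl, wf_drop i, by simp [mv, Cmd.WF, Op.WF]⟩, trivial⟩

theorem wv_left (i : V) : (leftC i).wv = {i} := by
  simp only [leftC, Cmd.wv]
  rw [wv_scan i _ rfl, wv_drop]
  simp [mv, pp, psh, Cmd.wv, Op.wv]

theorem wf_right (i : V) : (rightC i).WF := ⟨trivial, wf_drop i, trivial⟩

theorem wv_right (i : V) : (rightC i).wv = {i} := by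
  simp only [rightC, Cmd.wv]
  rw [wv_drop]
  simp [pp, psh, Cmd.wv, Op.wv]

theorem wf_sz (i : V) : (szC i).WF :=
  ⟨wf_scan i _ ⟨trivial, trivial⟩ (by simp [actU, psh, Cmd.wv, Op.wv]), trivial,
    by simp [mv, Cmd.WF, Op.WF]⟩

theorem wv_sz (i : V) : (szC i).wv = {i} := by
  simp only [szC, Cmd.wv]
  rw [wv_scan i _ (by simp [actU, psh, Cmd.wv, Op.wv])]
  simp [mv, psh, Cmd.wv, Op.wv]

theorem wf_eq (i : V) : (eqC i).WF := by
  refine ⟨trivial, ⟨wf_scan i _ trivial rfl, wf_scan i _ trivial rfl, trivial, ⟨?_, ?_⟩, ?_⟩, ?_⟩
  · simp [cmpBody, pp, Cmd.wv, Op.wv]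
  · simp [cmpBody, pp, Cmd.WF, Op.WF]
  · simp [psh, Cmd.WF, Op.WF]
  · simp [psh, Cmd.WF, Op.WF]

theorem wv_eq (i : V) : (eqC i).wv = {i} := by
  simp only [eqC, Cmd.wv]
  rw [wv_scan i _ rfl, wv_scan i _ rfl]
  simp [mv, pp, psh, cmpBody, Cmd.wv, Op.wv]

end WF

theorem comp_wv (D : ℕ) (e : Ex) : ∀ k, k + e.depth ≤ D → ∀ i ∈ (comp D k e).wv, k ≤ i.val := by
  induction e with
  | id => intro k hk i hi; simp [comp, nop, Cmd.wv, Op.wv] at hi
  | nil =>
    intro k hk i hi
    simp only [comp, Cmd.wv, wv_drop, psh, Op.wv, Set.union_empty, Set.mem_singleton_iff] at hi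
    rw [hi, ctr_val (by omega)]
  | left =>
    intro k hk i hi
    simp only [comp, wv_left, Set.mem_singleton_iff] at hi
    rw [hi, ctr_val (by omega)]
  | right =>
    intro k hk i hi
    simp only [comp, wv_right, Set.mem_singleton_iff] at hi
    rw [hi, ctr_val (by omega)]
  | sz =>
    intro k hk i hi
    simp only [comp, wv_sz, Set.mem_singleton_iff] at hi
    rw [hi, ctr_val (by omega)]
  | eq =>
    intro k hk i hi
    simp only [comp, wv_eq, Set.mem_singleton_iff] at hi
    rw [hi, ctr_val (by omega)]
  | pair a b iha ihb =>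
    intro k hk i hi
    simp only [Ex.depth] at hk
    simp only [comp, Cmd.wv, wv_dup, wv_swap, psh, Op.wv, Set.union_empty, Set.mem_union,
      Set.mem_singleton_iff] at hi
    rcases hi with hi | hi | hi | hi
    · rw [hi, ctr_val (by omega)]
    · exact ihb k (by omega) i hi
    · rw [hi, ctr_val (by omega)]
    · exact iha k (by omega) i hi
  | comp a b iha ihb =>
    intro k hk i hi
    simp only [Ex.depth] at hk
    simp only [comp, Cmd.wv, Set.mem_union] at hi
    rcases hi with hi | hi
    · exact ihb k (by omega) i hi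
    · exact iha k (by omega) i hi
  | ite c a b ihc iha ihb =>
    intro k hk i hi
    simp only [Ex.depth] at hk
    simp only [comp, Cmd.wv, wv_dup, wv_drop, psh, pp, Op.wv, Set.empty_union, Set.mem_union,
      Set.mem_singleton_iff] at hi
    rcases hi with hi | hi | (hi | hi) | hi
    · rw [hi, ctr_val (by omega)]
    · exact ihc k (by omega) i hi
    · rw [hi, ctr_val (by omega)]
    · exact iha k (by omega) i hi
    · exact ihb k (by omega) i hi
  | iter a iha =>
    intro k hk i hi
    simp only [Ex.depth] at hk
    simp only [comp, iterBody, Cmd.wv, wv_drop, wv_swap, psh, pp, Op.wv, Set.empty_union,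
      Set.union_empty, Set.mem_union, Set.mem_insert_iff, Set.mem_singleton_iff] at hi
    rcases hi with hi | hi | hi | hi | hi
    · rw [hi, ctr_val (by omega)]
    · rw [hi, ctr_val (by omega)]; omega
    · rw [hi, ctr_val (by omega)]; omega
    · exact le_trans (by omega) (iha (k + 1) (by omega) i hi)
    · rw [hi, ctr_val (by omega)]; omega

theorem comp_wf (D : ℕ) (e : Ex) : ∀ k, k + e.depth ≤ D → (comp D k e).WF := by
  induction e with
  | id => intro k _; trivial
  | nil => intro k _; exact ⟨wf_drop _, trivial⟩
  | left => intro k _; exact wf_left _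
  | right => intro k _; exact wf_right _
  | sz => intro k _; exact wf_sz _
  | eq => intro k _; exact wf_eq _
  | pair a b iha ihb =>
    intro k hk
    simp only [Ex.depth] at hk
    exact ⟨wf_dup _, ihb k (by omega), wf_swap _, iha k (by omega), trivial⟩
  | comp a b iha ihb =>
    intro k hk
    simp only [Ex.depth] at hk
    exact ⟨ihb k (by omega), iha k (by omega)⟩
  | ite c a b ihc iha ihb =>
    intro k hk
    simp only [Ex.depth] at hk
    exact ⟨wf_dup _, ihc k (by omega), trivial, ⟨trivial, wf_drop _, iha k (by omega)⟩,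
      ihb k (by omega)⟩
  | iter a iha =>
    intro k hk
    simp only [Ex.depth] at hk
    refine ⟨trivial, ⟨⟨?_, ?_⟩, trivial⟩, trivial⟩
    · intro hi
      simp only [iterBody, Cmd.wv, wv_drop, wv_swap, psh, pp, Op.wv, Set.empty_union,
        Set.union_empty, Set.mem_union, Set.mem_singleton_iff] at hi
      have h1 := ctr_val (D := D) (k := k) (by omega)
      have h2 := ctr_val (D := D) (k := k + 1) (by omega)
      rcases hi with hi | hi | hi | hi
      · rw [hi, h2] at h1; omega
      · rw [hi, h2] at h1; omega
      · have := comp_wv D a (k + 1) (by omega) _ hi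
        omega
      · rw [hi, h2] at h1; omega
    · exact ⟨trivial, ⟨wf_drop _, wf_swap _, iha (k + 1) (by omega), wf_swap _⟩, trivial⟩

end Pool.Agent.Lib.PolyTree
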