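import Pool.Agent.Lib.PolyTree.Typed

/-!
# Polynomial-time functions: options, numbers and lists
-/

namespace Pool.Agent.Lib.PolyTree

open Function T

set_option linter.unusedSectionVars false

section
variable {α β γ δ σ : Type} [TEnc α] [TEnc β] [TEnc γ] [TEnc δ] [TEnc σ]

/-- Functions whose values have the same encodings. -/
theorem PF.congr_enc {g : α → γ} (hg : PF g) {f : α → β} (h : ∀ a, enc (f a) = enc (g a)) :
    PF f := by
  obtain ⟨e, he, hb⟩ := hg
  exact ⟨e, fun a => by rw [he, h], hb⟩

/-- Functions of a tree with the same encoding. -/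
theorem PF.right {f : α → T} (hf : PF f) : PF fun a => (f a).right :=
  PF.comp (f := fun t : T => t.right) ⟨.right, fun _ => rfl, PB.tsz_self⟩ hf

theorem PF.left {f : α → T} (hf : PF f) : PF fun a => (f a).left :=
  PF.comp (f := fun t : T => t.left) ⟨.left, fun _ => rfl, PB.tsz_self⟩ hf

/-! ### Options -/

@[fun_prop]
theorem PF.some {f : α → β} (hf : PF f) : PF fun a => Option.some (f a) :=
  (PF.pair (PF.const T.nil) hf).congr_enc fun _ => rfl

/-- The value of an option, encoded. -/
theorem PF.option_elim {o : α → Option β} {z : α → γ} {s : α → β → γ} (ho : PF o) (hz : PF z)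
    (hs : PF fun p : α × β => s p.1 p.2) : PF fun a => (o a).elim (z a) (s a) := by
  obtain ⟨e, he, hb⟩ := ho
  obtain ⟨d, hd, hb'⟩ := hz
  obtain ⟨k, hk, ⟨q, hq⟩⟩ := hs
  refine ⟨.ite e (.comp k (.pair .id (.comp .right e))) d, fun a => ?_, ?_⟩
  · cases h : o a with
    | none => simp [Ex.eval, he, hd, h]
    | some b =>
      have := hk (a, b)
      simp only [enc_pair] at this
      simp [Ex.eval, he, h, T.right, this]
  · refine PB.of_le (g := fun a => e.msz (enc a) + d.msz (enc a) +
      q.eval (tsz a + e.msz (enc a) + 1) + (tsz a + e.msz (enc a) + e.msz (enc a) + 1))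
      (by fun_prop) ?_
    intro a
    simp only [Ex.msz, he]
    cases h : o a with
    | none => simp; omega
    | some b =>
      have h1 := hq (a, b)
      simp only [enc_pair] at h1
      have h2 : tsz (a, b) ≤ tsz a + e.msz (enc a) + 1 := by
        have := e.size_eval_le_msz (enc a)
        rw [he, h, enc_some] at this
        simp only [size] at this
        simp only [tsz_pair]
        unfold tsz
        omega
      have h3 := Pool.Agent.Lib.PolyTM.poly_mono q h2
      have h4 := e.size_eval_le_msz (enc a)
      rw [he, h] at h4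
      simp only [enc_some, reduceCtorEq, if_false, T.right, Ex.eval, he, h] at *
      unfold tsz at *
      omega

attribute [fun_prop] PF.option_elim

@[fun_prop]
theorem PF.option_getD {o : α → Option β} {z : α → β} (ho : PF o) (hz : PF z) :
    PF fun a => (o a).getD (z a) := by
  refine (PF.option_elim (s := fun _ b => b) ho hz (by fun_prop)).of_eq fun a => ?_
  cases o a <;> rfl

@[fun_prop]
theorem PF.option_map {o : α → Option β} {s : α → β → γ} (ho : PF o)
    (hs : PF fun p : α × β => s p.1 p.2) : PF fun a => (o a).map (s a) := by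
  refine (PF.option_elim (z := fun _ => Option.none) (s := fun a b => Option.some (s a b)) ho
    (by fun_prop) (by fun_prop)).of_eq fun a => ?_
  cases o a <;> rfl

@[fun_prop]
theorem PF.option_bind {o : α → Option β} {s : α → β → Option γ} (ho : PF o)
    (hs : PF fun p : α × β => s p.1 p.2) : PF fun a => (o a).bind (s a) := by
  refine (PF.option_elim (z := fun _ => Option.none) (s := fun a b => s a b) ho
    (by fun_prop) (by fun_prop)).of_eq fun a => ?_
  cases o a <;> rfl

@[fun_prop]
theorem PF.option_isSome {o : α → Option β} (ho : PF o) : PF fun a => (o a).isSome := by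
  refine (PF.option_elim (z := fun _ => false) (s := fun _ _ => true) ho
    (by fun_prop) (by fun_prop)).of_eq fun a => ?_
  cases o a <;> rfl

@[fun_prop]
theorem PF.option_isNone {o : α → Option β} (ho : PF o) : PF fun a => (o a).isNone := by
  refine (PF.option_elim (z := fun _ => true) (s := fun _ _ => false) ho
    (by fun_prop) (by fun_prop)).of_eq fun a => ?_
  cases o a <;> rfl

@[fun_prop]
theorem PF.option_or {o o' : α → Option β} (ho : PF o) (ho' : PF o') :
    PF fun a => (o a).or (o' a) := by
  refine (PF.option_elim (z := o') (s := fun _ b => Option.some b) ho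
    (by fun_prop) (by fun_prop)).of_eq fun a => ?_
  cases o a <;> rfl

/-! ### Lists as options -/

@[fun_prop]
theorem PF.cons {f : α → β} {g : α → List β} (hf : PF f) (hg : PF g) :
    PF fun a => f a :: g a := (PF.pair hf hg).congr_enc fun _ => rfl

@[fun_prop]
theorem PF.tail {l : α → List β} (hl : PF l) : PF fun a => (l a).tail := by
  refine (PF.right (PF.toTree.1 hl)).congr_enc fun a => ?_
  cases l a <;> rfl

@[fun_prop]
theorem PF.head? {l : α → List β} (hl : PF l) : PF fun a => (l a).head? := by
  refine (PF.treeIte (c := fun a => enc (l a)) (f := fun a => T.node .nil (enc (l a)).left)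
    (g := fun _ => T.nil) (PF.toTree.1 hl) ?_ (PF.const _)).congr_enc fun a => ?_
  · exact (PF.pair (PF.const T.nil) (PF.left (PF.toTree.1 hl))).congr_enc fun a => rfl
  · cases l a with
    | nil => simp
    | cons b l => simp [T.left]

@[fun_prop]
theorem PF.headD {l : α → List β} {z : α → β} (hl : PF l) (hz : PF z) :
    PF fun a => (l a).headD (z a) := by
  refine (PF.option_getD (PF.head? hl) hz).of_eq fun a => ?_
  rw [List.headD_eq_head?_getD]

/-- Case analysis on lists. -/
def lcase {β γ : Type} (l : List β) (z : γ) (s : β → List β → γ) : γ :=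
  match l with
  | [] => z
  | b :: l => s b l

@[simp] theorem lcase_nil {β γ : Type} (z : γ) (s : β → List β → γ) : lcase [] z s = z := rfl
@[simp] theorem lcase_cons {β γ : Type} (b : β) (l : List β) (z : γ) (s : β → List β → γ) :
    lcase (b :: l) z s = s b l := rfl

@[fun_prop]
theorem PF.lcase {l : α → List β} {z : α → γ} {s : α → β → List β → γ} (hl : PF l) (hz : PF z)
    (hs : PF fun p : α × β × List β => s p.1 p.2.1 p.2.2) :
    PF fun a => lcase (l a) (z a) (s a) := by
  refine (PF.option_elim (o := fun a => (l a).head?) (z := z)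
    (s := fun a b => s a b (l a).tail) (by fun_prop) hz ?_).of_eq fun a => ?_
  · exact PF.comp (g := fun p : α × β => (p.1, p.2, (l p.1).tail)) hs (by fun_prop)
  · cases l a <;> rfl

@[fun_prop]
theorem PF.isEmpty {l : α → List β} (hl : PF l) : PF fun a => (l a).isEmpty := by
  refine (PF.lcase (z := fun _ => true) (s := fun _ _ _ => false) hl (by fun_prop)
    (by fun_prop)).of_eq fun a => ?_
  cases l a <;> rfl

/-! ### Numbers -/

@[fun_prop]
theorem PF.succ {f : α → ℕ} (hf : PF f) : PF fun a => f a + 1 :=
  (PF.pair (PF.const T.nil) hf).congr_enc fun _ => rfl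

theorem PF.pred {f : α → ℕ} (hf : PF f) : PF fun a => f a - 1 := by
  refine (PF.right (PF.toTree.1 hf)).congr_enc fun a => ?_
  cases f a <;> rfl

/-- Case analysis on numbers. -/
def ncase {γ : Type} (n : ℕ) (z : γ) (s : ℕ → γ) : γ :=
  match n with
  | 0 => z
  | n + 1 => s n

@[simp] theorem ncase_zero {γ : Type} (z : γ) (s : ℕ → γ) : ncase 0 z s = z := rfl
@[simp] theorem ncase_succ {γ : Type} (n : ℕ) (z : γ) (s : ℕ → γ) :
    ncase (n + 1) z s = s n := rfl

@[fun_prop]
theorem PF.ncase {n : α → ℕ} {z : α → γ} {s : α → ℕ → γ} (hn : PF n) (hz : PF z)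
    (hs : PF fun p : α × ℕ => s p.1 p.2) : PF fun a => ncase (n a) (z a) (s a) := by
  refine (PF.cond (c := fun a => decide (n a = 0)) (f := z) (g := fun a => s a (n a - 1))
    (by fun_prop) hz ?_).of_eq fun a => ?_
  · exact PF.comp (g := fun a => (a, n a - 1)) hs (PF.pair (by fun_prop) (PF.pred hn))
  · cases h : n a <;> simp [h]

@[fun_prop]
theorem PF.length {l : α → List β} (hl : PF l) : PF fun a => (l a).length := by
  have key : ∀ l : List β, (enc l).len = l.length := by
    intro l
    induction l with
    | nil => rfl
    | cons b l ih => rw [enc_lcons, T.len, ih, List.length_cons]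
  have hit : ∀ t, (fun n : ℕ => n + 1)^[t] 0 = t := by
    intro t
    induction t with
    | zero => rfl
    | succ t ih => rw [iterate_succ_apply', ih]
  refine (PF.iterTree (f := fun n : ℕ => n + 1) (n := fun a => enc (l a)) (s := fun _ => 0)
    (B := fun a => 2 * (l a).length + 1)
    (by fun_prop) (PF.toTree.1 hl) (by fun_prop) (by fun_prop) ?_).of_eq fun a => ?_
  · intro a t ht
    rw [key] at ht
    rw [hit, tsz_nat]; omega
  · rw [key, hit]

@[fun_prop]
theorem PF.add {f g : α → ℕ} (hf : PF f) (hg : PF g) : PF fun a => f a + g a := by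
  have hit : ∀ t n, (fun n : ℕ => n + 1)^[t] n = n + t := by
    intro t n
    induction t with
    | zero => rfl
    | succ t ih => rw [iterate_succ_apply', ih]; omega
  refine (PF.iterate (f := fun n : ℕ => n + 1) (n := g) (s := f)
    (B := fun a => 2 * (f a + g a) + 1)
    (by fun_prop) hg hf (by fun_prop) ?_).of_eq fun a => ?_
  · intro a t ht
    rw [hit, tsz_nat]; omega
  · rw [hit]

@[fun_prop]
theorem PF.sub {f g : α → ℕ} (hf : PF f) (hg : PF g) : PF fun a => f a - g a := by
  have hit : ∀ t n, (fun n : ℕ => n - 1)^[t] n = n - t := by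
    intro t n
    induction t with
    | zero => rfl
    | succ t ih => rw [iterate_succ_apply', ih]; omega
  refine (PF.iterate (f := fun n : ℕ => n - 1) (n := g) (s := f)
    (B := fun a => 2 * (f a) + 1)
    (PF.pred (by fun_prop)) hg hf (by fun_prop) ?_).of_eq fun a => ?_
  · intro a t ht
    rw [hit, tsz_nat]; omega
  · rw [hit]

@[fun_prop]
theorem PF.mul {f g : α → ℕ} (hf : PF f) (hg : PF g) : PF fun a => f a * g a := by
  have hit : ∀ m t, (fun n : ℕ => n + m)^[t] 0 = m * t := by
    intro m t
    induction t with
    | zero => rfl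
    | succ t ih => rw [iterate_succ_apply', ih]; ring
  refine (PF.iterate' (f := fun a n => n + f a) (n := g) (s := fun _ => 0)
    (B := fun a => 2 * (f a * g a) + 1)
    (by fun_prop) hg (by fun_prop) (by fun_prop) ?_).of_eq fun a => ?_
  · intro a t ht
    rw [hit, tsz_nat]
    have : f a * t ≤ f a * g a := Nat.mul_le_mul_left _ ht.le
    omega
  · rw [hit]

@[fun_prop]
theorem PF.decide_le {f g : α → ℕ} (hf : PF f) (hg : PF g) :
    PF fun a => decide (f a ≤ g a) := by
  have h : PF fun a => decide (f a - g a = 0) := by fun_prop
  refine h.of_eq fun a => ?_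
  rw [decide_eq_decide]; omega

@[fun_prop]
theorem PF.decide_lt {f g : α → ℕ} (hf : PF f) (hg : PF g) :
    PF fun a => decide (f a < g a) := by
  have h : PF fun a => decide (f a + 1 ≤ g a) := by fun_prop
  exact h

@[fun_prop]
theorem PF.max {f g : α → ℕ} (hf : PF f) (hg : PF g) : PF fun a => Max.max (f a) (g a) := by
  have h : PF fun a => f a + (g a - f a) := by fun_prop
  refine h.of_eq fun a => ?_
  omega

@[fun_prop]
theorem PF.min {f g : α → ℕ} (hf : PF f) (hg : PF g) : PF fun a => Min.min (f a) (g a) := by
  have h : PF fun a => f a - (f a - g a) := by fun_prop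
  refine h.of_eq fun a => ?_
  omega

@[fun_prop]
theorem PF.pow {f : α → ℕ} (hf : PF f) (k : ℕ) : PF fun a => f a ^ k := by
  induction k with
  | zero => simpa using PF.const (α := α) 1
  | succ k ih =>
    have h : PF fun a => f a ^ k * f a := by fun_prop
    exact h

/-! ### Folds -/

/-- Left folds. -/
theorem PF.foldl {l : α → List β} {s : α → σ} {h : α → σ → β → σ}
    (hh : PF fun p : α × σ × β => h p.1 p.2.1 p.2.2) (hl : PF l) (hs : PF s) {B : α → ℕ}
    (hB : PB B) (hb : ∀ a, ∀ l', l' <+: l a → tsz (l'.foldl (h a) (s a)) ≤ B a) :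
    PF fun a => (l a).foldl (h a) (s a) := by
  let step : α → List β × σ → List β × σ := fun a q =>
    Pool.Agent.Lib.PolyTree.lcase q.1 q (fun b l' => (l', h a q.2 b))
  have hstep : PF fun p : α × List β × σ => step p.1 p.2 := by
    simp only [step]
    refine PF.lcase (by fun_prop) (by fun_prop) ?_
    refine PF.pair (by fun_prop) ?_
    exact PF.comp (g := fun p : (α × List β × σ) × β × List β => (p.1.1, p.1.2.2, p.2.1)) hh
      (by fun_prop)
  have key : ∀ a (t : ℕ) (l : List β) (s : σ), (step a)^[t] (l, s) =
      (l.drop t, (l.take t).foldl (h a) s) := by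
    intro a t
    induction t with
    | zero => intro l s; simp
    | succ t ih =>
      intro l s
      rw [iterate_succ_apply]
      cases l with
      | nil =>
        have h1 : step a ([], s) = ([], s) := rfl
        rw [h1, ih]; simp
      | cons b l =>
        have h1 : step a (b :: l, s) = (l, h a s b) := rfl
        rw [h1, ih]; simp
  have h1 : PF fun a => ((step a)^[(l a).length] (l a, s a)).2 := by
    refine PF.snd (PF.iterate' (B := fun a => tsz (l a) + B a + 1) hstep (by fun_prop)
      (by fun_prop) (by fun_prop) ?_)
    intro a t _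
    rw [key, tsz_pair]
    have e1 := hb a _ (List.take_prefix t (l a))
    have e2 : tsz ((l a).drop t) ≤ tsz (l a) := tsz_sublist (List.drop_sublist _ _)
    simp only
    omega
  refine h1.of_eq fun a => ?_
  rw [key]
  simp

/-- Left folds whose state grows by a bounded amount in every step. -/
theorem PF.foldl_add {l : α → List β} {s : α → σ} {h : α → σ → β → σ}
    (hh : PF fun p : α × σ × β => h p.1 p.2.1 p.2.2) (hl : PF l) (hs : PF s) {C : α → ℕ}
    (hC : PB C) (hb : ∀ a, ∀ b ∈ l a, ∀ x, tsz (h a x b) ≤ tsz x + C a) :
    PF fun a => (l a).foldl (h a) (s a) := by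
  refine PF.foldl hh hl hs (B := fun a => tsz (s a) + (l a).length * C a) (by fun_prop) ?_
  intro a l' hl'
  have key : ∀ (m : List β) (x : σ), (∀ b ∈ m, b ∈ l a) →
      tsz (m.foldl (h a) x) ≤ tsz x + m.length * C a := by
    intro m
    induction m with
    | nil => intro x _; simp
    | cons b m ih =>
      intro x hm
      rw [List.foldl_cons, List.length_cons]
      have h1 := ih (h a x b) (fun c hc => hm c (by simp [hc]))
      have h2 := hb a b (hm b (by simp)) x
      have h3 : (m.length + 1) * C a = m.length * C a + C a := by ring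
      omega
  refine (key l' (s a) fun b hb => hl'.subset hb).trans ?_
  have := hl'.length_le
  have := Nat.mul_le_mul_right (C a) this
  omega

@[fun_prop]
theorem PF.reverse {l : α → List β} (hl : PF l) : PF fun a => (l a).reverse := by
  have key : ∀ (l m : List β), l.foldl (fun acc b => b :: acc) m = l.reverse ++ m := by
    intro l
    induction l with
    | nil => intro m; rfl
    | cons b l ih => intro m; simp [ih]
  refine (PF.foldl (l := l) (s := fun _ => ([] : List β)) (h := fun _ acc b => b :: acc)
    (B := fun a => tsz (l a)) (by fun_prop) hl (by fun_prop) (by fun_prop) ?_).of_eq fun a => ?_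
  · intro a l' hl'
    rw [key, List.append_nil, tsz_reverse]
    exact tsz_sublist hl'.sublist
  · rw [key, List.append_nil]

@[fun_prop]
theorem PF.append {l m : α → List β} (hl : PF l) (hm : PF m) : PF fun a => l a ++ m a := by
  have key : ∀ (l m : List β), l.foldl (fun acc b => b :: acc) m = l.reverse ++ m := by
    intro l
    induction l with
    | nil => intro m; rfl
    | cons b l ih => intro m; simp [ih]
  refine (PF.foldl (l := fun a => (l a).reverse) (s := m) (h := fun _ acc b => b :: acc)
    (B := fun a => tsz (l a) + tsz (m a)) (by fun_prop) (by fun_prop) hm (by fun_prop)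
    ?_).of_eq fun a => ?_
  · intro a l' hl'
    rw [key]
    refine (tsz_append_le _ _).trans ?_
    rw [tsz_reverse]
    have := tsz_sublist hl'.sublist
    rw [tsz_reverse] at this
    omega
  · rw [key, List.reverse_reverse]

@[fun_prop]
theorem PF.map {l : α → List β} {f : α → β → γ} (hl : PF l)
    (hf : PF fun p : α × β => f p.1 p.2) : PF fun a => (l a).map (f a) := by
  have key : ∀ (a : α) (l : List β) (m : List γ),
      l.foldl (fun acc b => f a b :: acc) m = (l.map (f a)).reverse ++ m := by
    intro a l
    induction l with
    | nil => intro m; rfl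
    | cons b l ih => intro m; simp [ih]
  obtain ⟨q, hq⟩ := hf.tsz_le
  have hel : ∀ a, ∀ b ∈ l a, tsz (f a b) ≤ q.eval (tsz a + tsz (l a) + 1) := by
    intro a b hb
    refine (hq (a, b)).trans (Pool.Agent.Lib.PolyTM.poly_mono q ?_)
    have := tsz_mem hb
    simp only [tsz_pair]; omega
  have h1 : PF fun a => ((l a).foldl (fun acc b => f a b :: acc) []).reverse := by
    refine PF.reverse (PF.foldl (B := fun a => (l a).length *
      (q.eval (tsz a + tsz (l a) + 1) + 1) + 1)
      (h := fun a acc b => f a b :: acc) ?_ hl (by fun_prop) (by fun_prop) ?_)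
    · refine PF.cons ?_ (by fun_prop)
      exact PF.comp (g := fun p : α × List γ × β => (p.1, p.2.2)) hf (by fun_prop)
    · intro a l' hl'
      rw [key, List.append_nil, tsz_reverse]
      refine tsz_list_le ?_ ?_
      · rw [List.length_map]; exact hl'.length_le
      · intro c hc
        obtain ⟨b, hb, rfl⟩ := List.mem_map.1 hc
        exact hel a b (hl'.subset hb)
  refine h1.of_eq fun a => ?_
  rw [key]; simp

@[fun_prop]
theorem PF.flatten {l : α → List (List β)} (hl : PF l) : PF fun a => (l a).flatten := by
  have key : ∀ (l : List (List β)) (m : List β),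
      l.foldl (fun acc b => acc ++ b) m = m ++ l.flatten := by
    intro l
    induction l with
    | nil => intro m; simp
    | cons b l ih => intro m; simp [ih]
  have hfl : ∀ l : List (List β), tsz l.flatten ≤ tsz l := by
    intro l
    induction l with
    | nil => simp
    | cons b l ih =>
      rw [List.flatten_cons, tsz_cons]
      have := tsz_append_le b l.flatten
      omega
  refine (PF.foldl (l := l) (s := fun _ => ([] : List β)) (h := fun _ acc b => acc ++ b)
    (B := fun a => tsz (l a)) (by fun_prop) hl (by fun_prop) (by fun_prop) ?_).of_eq fun a => ?_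
  · intro a l' hl'
    rw [key, List.nil_append]
    exact (hfl l').trans (tsz_sublist hl'.sublist)
  · rw [key, List.nil_append]

@[fun_prop]
theorem PF.flatMap {l : α → List β} {f : α → β → List γ} (hl : PF l)
    (hf : PF fun p : α × β => f p.1 p.2) : PF fun a => (l a).flatMap (f a) := by
  have h : PF fun a => ((l a).map (f a)).flatten := by fun_prop
  exact h.of_eq fun a => by rw [List.flatMap_def]

@[fun_prop]
theorem PF.filter {l : α → List β} {f : α → β → Bool} (hl : PF l)
    (hf : PF fun p : α × β => f p.1 p.2) : PF fun a => (l a).filter (f a) := by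
  have h : PF fun a => (l a).flatMap (fun b => bif f a b then [b] else []) := by fun_prop
  refine h.of_eq fun a => ?_
  induction l a with
  | nil => rfl
  | cons b l ih =>
    rw [List.flatMap_cons, ih, List.filter_cons]
    cases f a b <;> simp

@[fun_prop]
theorem PF.filterMap {l : α → List β} {f : α → β → Option γ} (hl : PF l)
    (hf : PF fun p : α × β => f p.1 p.2) : PF fun a => (l a).filterMap (f a) := by
  have h : PF fun a => (l a).flatMap (fun b => (f a b).elim [] (fun c => [c])) := by fun_prop
  refine h.of_eq fun a => ?_
  induction l a with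
  | nil => rfl
  | cons b l ih =>
    rw [List.flatMap_cons, ih, List.filterMap_cons]
    cases f a b <;> simp

@[fun_prop]
theorem PF.all {l : α → List β} {f : α → β → Bool} (hl : PF l)
    (hf : PF fun p : α × β => f p.1 p.2) : PF fun a => (l a).all (f a) := by
  have h : PF fun a => ((l a).filter (fun b => !(f a b))).isEmpty := by fun_prop
  refine h.of_eq fun a => ?_
  rw [Bool.eq_iff_iff]
  simp

@[fun_prop]
theorem PF.any {l : α → List β} {f : α → β → Bool} (hl : PF l)
    (hf : PF fun p : α × β => f p.1 p.2) : PF fun a => (l a).any (f a) := by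
  have h : PF fun a => !((l a).filter (f a)).isEmpty := by fun_prop
  refine h.of_eq fun a => ?_
  rw [Bool.eq_iff_iff]
  simp

@[fun_prop]
theorem PF.find? {l : α → List β} {f : α → β → Bool} (hl : PF l)
    (hf : PF fun p : α × β => f p.1 p.2) : PF fun a => (l a).find? (f a) := by
  have h : PF fun a => ((l a).filter (f a)).head? := by fun_prop
  exact h.of_eq fun a => by rw [List.head?_filter]

@[fun_prop]
theorem PF.sum {l : α → List ℕ} (hl : PF l) : PF fun a => (l a).sum := by
  have key : ∀ (l : List ℕ) (m : ℕ), l.foldl (fun acc b => acc + b) m = m + l.sum := by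
    intro l
    induction l with
    | nil => intro m; simp
    | cons b l ih => intro m; simp [ih, add_assoc]
  have hfl : ∀ l : List ℕ, 2 * l.sum + 1 ≤ tsz l := by
    intro l
    induction l with
    | nil => simp
    | cons b l ih => rw [List.sum_cons, tsz_cons, tsz_nat]; omega
  refine (PF.foldl (l := l) (s := fun _ => 0) (h := fun _ acc b => acc + b)
    (B := fun a => tsz (l a)) (by fun_prop) hl (by fun_prop) (by fun_prop) ?_).of_eq fun a => ?_
  · intro a l' hl'
    rw [key, Nat.zero_add, tsz_nat]
    exact (hfl l').trans (tsz_sublist hl'.sublist)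
  · rw [key, Nat.zero_add]

theorem tsz_range (n : ℕ) : tsz (List.range n) ≤ n * (2 * n + 2) + 1 := by
  refine tsz_list_le (by simp) ?_
  intro a ha
  have := List.mem_range.1 ha
  rw [tsz_nat]; omega

@[fun_prop]
theorem PF.range {f : α → ℕ} (hf : PF f) : PF fun a => List.range (f a) := by
  have key : ∀ t, (fun l : List ℕ => l.length :: l)^[t] [] = (List.range t).reverse := by
    intro t
    induction t with
    | zero => rfl
    | succ t ih =>
      rw [iterate_succ_apply', ih, List.range_succ]
      simp
  have h : PF fun a => ((fun l : List ℕ => l.length :: l)^[f a] []).reverse := by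
    refine PF.reverse (PF.iterate (B := fun a => f a * (2 * f a + 2) + 1) (by fun_prop) hf
      (by fun_prop) (by fun_prop) ?_)
    intro a t ht
    rw [key, tsz_reverse]
    refine (tsz_range t).trans ?_
    have : t * (2 * t + 2) ≤ f a * (2 * f a + 2) := Nat.mul_le_mul (by omega) (by omega)
    omega
  refine h.of_eq fun a => ?_
  rw [key]; simp

@[fun_prop]
theorem PF.replicate {f : α → ℕ} {g : α → β} (hf : PF f) (hg : PF g) :
    PF fun a => List.replicate (f a) (g a) := by
  have h : PF fun a => (List.range (f a)).map (fun _ => g a) := by fun_prop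
  refine h.of_eq fun a => ?_
  rw [List.map_const', List.length_range]

@[fun_prop]
theorem PF.drop {f : α → ℕ} {l : α → List β} (hf : PF f) (hl : PF l) :
    PF fun a => (l a).drop (f a) := by
  have key : ∀ t (l : List β), (fun l : List β => l.tail)^[t] l = l.drop t := by
    intro t
    induction t with
    | zero => intro l; simp
    | succ t ih =>
      intro l
      rw [iterate_succ_apply', ih, List.tail_drop]
  refine (PF.iterate (f := fun l : List β => l.tail) (n := f) (s := l) (B := fun a => tsz (l a))
    (by fun_prop) hf hl (by fun_prop) ?_).of_eq fun a => ?_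
  · intro a t _
    rw [key]
    exact tsz_sublist (List.drop_sublist _ _)
  · rw [key]

@[fun_prop]
theorem PF.take {f : α → ℕ} {l : α → List β} (hf : PF f) (hl : PF l) :
    PF fun a => (l a).take (f a) := by
  have h : PF fun a => (((l a).reverse).drop ((l a).length - f a)).reverse := by fun_prop
  refine h.of_eq fun a => ?_
  rw [List.drop_reverse, List.reverse_reverse]
  by_cases h : f a ≤ (l a).length
  · congr 1; omega
  · rw [List.take_of_length_le, List.take_of_length_le] <;> omega

@[fun_prop]
theorem PF.getElem? {f : α → ℕ} {l : α → List β} (hf : PF f) (hl : PF l) :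
    PF fun a => (l a)[f a]? := by
  have h : PF fun a => ((l a).drop (f a)).head? := by fun_prop
  exact h.of_eq fun a => by rw [List.head?_drop]

@[fun_prop]
theorem PF.getD {f : α → ℕ} {l : α → List β} {z : α → β} (hf : PF f) (hl : PF l) (hz : PF z) :
    PF fun a => (l a).getD (f a) (z a) := by
  have h : PF fun a => ((l a)[f a]?).getD (z a) := by fun_prop
  exact h.of_eq fun a => by rw [List.getD_eq_getElem?_getD]

@[fun_prop]
theorem PF.set {l : α → List β} {f : α → ℕ} {g : α → β} (hl : PF l) (hf : PF f) (hg : PF g) :
    PF fun a => (l a).set (f a) (g a) := by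
  have h : PF fun a => if f a < (l a).length then
    (l a).take (f a) ++ g a :: (l a).drop (f a + 1) else l a := by fun_prop
  exact h.of_eq fun a => by rw [List.set_eq_take_append_cons_drop]

@[fun_prop]
theorem PF.zip {l : α → List β} {m : α → List γ} (hl : PF l) (hm : PF m) :
    PF fun a => (l a).zip (m a) := by
  have h : PF fun a => (List.range (l a).length).filterMap
      (fun i => ((l a)[i]?).bind fun b => ((m a)[i]?).map fun c => (b, c)) := by fun_prop
  refine h.of_eq fun a => ?_
  generalize l a = l
  generalize m a = m
  induction l generalizing m with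
  | nil => simp
  | cons b l ih =>
    cases m with
    | nil => simp
    | cons c m =>
      rw [List.length_cons, List.range_succ_eq_map, List.filterMap_cons]
      simp only [List.getElem?_cons_zero, Option.map_some, Option.bind_some,
        List.filterMap_map, List.zip_cons_cons]
      rw [← ih m]
      rfl

@[fun_prop]
theorem PF.zipWith {l : α → List β} {m : α → List γ} {f : α → β → γ → δ} (hl : PF l)
    (hm : PF m) (hf : PF fun p : α × β × γ => f p.1 p.2.1 p.2.2) :
    PF fun a => List.zipWith (f a) (l a) (m a) := by
  have h : PF fun a => ((l a).zip (m a)).map (fun x => f a x.1 x.2) := by fun_prop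
  exact h.of_eq fun a => by rw [List.zip, List.map_zipWith]

@[fun_prop]
theorem PF.div {f g : α → ℕ} (hf : PF f) (hg : PF g) : PF fun a => f a / g a := by
  have h : PF fun a => if g a = 0 then 0 else
    ((List.range (f a)).filter (fun k => decide ((k + 1) * g a ≤ f a))).length := by fun_prop
  refine h.of_eq fun a => ?_
  generalize f a = n
  generalize g a = m
  by_cases hm : m = 0
  · simp [hm]
  · rw [if_neg hm]
    have e : (List.range n).filter (fun k => decide ((k + 1) * m ≤ n)) = List.range (n / m) := by
      have h1 : n / m ≤ n := Nat.div_le_self _ _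
      obtain ⟨r, hr⟩ := Nat.exists_eq_add_of_le h1
      have h2 : List.range n = List.range (n / m) ++ (List.range r).map (n / m + ·) := by
        rw [← List.range_add, ← hr]
      rw [h2, List.filter_append]
      have h3 : (List.range (n / m)).filter (fun k => decide ((k + 1) * m ≤ n)) =
          List.range (n / m) := by
        rw [List.filter_eq_self]
        intro k hk
        have := List.mem_range.1 hk
        rw [decide_eq_true_eq, ← Nat.le_div_iff_mul_le (by omega)]
        omega
      have h4 : ((List.range r).map (n / m + ·)).filter (fun k => decide ((k + 1) * m ≤ n)) =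
          [] := by
        rw [List.filter_eq_nil_iff]
        intro k hk
        obtain ⟨j, -, rfl⟩ := List.mem_map.1 hk
        rw [decide_eq_true_eq, ← Nat.le_div_iff_mul_le (by omega)]
        omega
      rw [h3, h4, List.append_nil]
    rw [e, List.length_range]

@[fun_prop]
theorem PF.mod {f g : α → ℕ} (hf : PF f) (hg : PF g) : PF fun a => f a % g a := by
  have h : PF fun a => f a - g a * (f a / g a) := by fun_prop
  refine h.of_eq fun a => ?_
  have := Nat.div_add_mod (f a) (g a)
  omega

/-- Primitive recursion with bounded values. -/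
theorem PF.natRec {n : α → ℕ} {z : α → σ} {s : α → ℕ → σ → σ} (hn : PF n) (hz : PF z)
    (hs : PF fun p : α × ℕ × σ => s p.1 p.2.1 p.2.2) {B : α → ℕ} (hB : PB B)
    (hb : ∀ a, ∀ t ≤ n a, tsz (Nat.rec (motive := fun _ => σ) (z a) (s a) t) ≤ B a) :
    PF fun a => Nat.rec (motive := fun _ => σ) (z a) (s a) (n a) := by
  have key : ∀ a t, (List.range t).foldl (fun r k => s a k r) (z a) =
      Nat.rec (motive := fun _ => σ) (z a) (s a) t := by
    intro a t
    induction t with
    | zero => rfl
    | succ t ih => rw [List.range_succ, List.foldl_append, ih]; rfl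
  refine (PF.foldl (l := fun a => List.range (n a)) (s := z) (h := fun a r k => s a k r)
    ?_ (by fun_prop) hz hB ?_).of_eq fun a => key a _
  · exact PF.comp (g := fun p : α × σ × ℕ => (p.1, p.2.2, p.2.1)) hs (by fun_prop)
  · intro a l' hl'
    obtain ⟨t, ht, rfl⟩ : ∃ t ≤ n a, l' = List.range t := by
      refine ⟨l'.length, ?_, ?_⟩
      · simpa using hl'.length_le
      · have h1 := List.prefix_iff_eq_take.1 hl'
        have h2 := hl'.length_le
        rw [List.length_range] at h2
        rw [List.take_range, min_eq_left h2] at h1
        exact h1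
    rw [key]
    exact hb a t ht

end

end Pool.Agent.Lib.PolyTree
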