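import Pool.Agent.Lib.PolyTree.Compile
import Pool.Agent.Lib.PolyTM.Comp

/-!
# Tree expressions on Turing machines
-/

namespace Pool.Agent.Lib.PolyTree

open Function T
open Pool.Agent.Lib.PolyTM (Op Cmd St PolyFun IO mach mach_poly gamFinite Outputs poly_mono)

set_option linter.unusedSectionVars false
set_option linter.unusedSimpArgs false

/-- Every command gives a polynomial-time function of words. -/
theorem polyFun_of_cmd {V B K Γ : Type} [DecidableEq V] [DecidableEq B] [DecidableEq K]
    [Fintype V] [Fintype B] [Fintype K] [Fintype Γ] (io : IO K Γ) (c : Cmd V B K) (hc : c.WF) :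
    PolyFun (fun w : List Γ => ((c.exec (w.countP io.cnt) (St.init io w)).st io.ko).reverse) := by
  obtain ⟨p, hp⟩ := mach_poly io c hc
  refine ⟨⟨mach io c, Equiv.refl _, Equiv.refl _⟩, p, fun k => gamFinite _ _ _ k, fun w => ?_⟩
  obtain ⟨h⟩ := hp w
  have e1 : w.map (Equiv.refl Γ).invFun = w := by
    change w.map id = w
    simp
  have e2 : ∀ v : List Bool, v.map (Equiv.refl Bool).invFun = v := by
    intro v
    change v.map id = v
    simp
  exact ⟨cast (congrArg₂ (fun (x : List Γ) (y : List Bool) =>
    Turing.TM2OutputsInTime (mach io c) x (some y) (p.eval w.length)) e1 (e2 _)).symm h⟩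

/-- All symbols counted, the input on stack `B`, output from stack `B`. -/
def ioT : IO K4 Bool where
  cnt := fun _ => true
  ini := fun k a => if k = .B then some a else none
  ko := .B

/-- The main program of an expression. -/
def mainC (e : Ex) : Cm (Fin (e.depth + 1)) :=
  .seq (mv .B .A) (.seq (comp e.depth 0 e) (scan (ctr e.depth 0) actB))

theorem mainC_wf (e : Ex) : (mainC e).WF :=
  ⟨by simp [mv, Cmd.WF, Op.WF], comp_wf _ _ _ (by omega), wf_scan _ _ trivial rfl⟩

/-- An expression on codes, followed by enough padding. -/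
theorem ex_polyFun (e : Ex) : ∃ F : List Bool → List Bool, PolyFun F ∧
    ∀ (x : T) (rest : List Bool), e.msz x ≤ (x.code ++ rest).length →
      F (x.code ++ rest) = (e.eval x).code := by
  refine ⟨_, polyFun_of_cmd ioT (mainC e) (mainC_wf e), fun x rest hN => ?_⟩
  set w := x.code ++ rest with hw
  have hcnt : w.countP ioT.cnt = w.length := by
    rw [List.countP_eq_length]
    intro a _
    rfl
  rw [hcnt]
  set s0 : Sta (Fin (e.depth + 1)) := St.init ioT w with hs0
  have hB : s0.st .B = w.reverse := by simp [hs0, St.init, ioT]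
  have hA : s0.st .A = [] := by simp [hs0, St.init, ioT]
  have hC : s0.st .C = [] := by simp [hs0, St.init, ioT]
  have hD : s0.st .D = [] := by simp [hs0, St.init, ioT]
  have hg : Good (x.code ++ rest) ((mv .B .A : Cm (Fin (e.depth + 1))).exec w.length s0) := by
    refine ⟨?_, ?_, ?_, ?_⟩ <;> simp [mv, Cmd.exec, Op.exec, update, hA, hB, hC, hD, hw]
  have h1 := comp_spec e.depth w.length e 0 x rest _ hg hN
  have h2 := (e.size_eval_le_msz x).trans hN
  obtain ⟨a1, a2, a3, a4⟩ := h1
  obtain ⟨g1, g2, g3, g4⟩ := scan_spec act_B (ctr e.depth 0) (e.eval x) rest _ a1 a3 h2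
  have he : (mainC e).exec w.length s0 = (scan (ctr e.depth 0) actB).exec w.length
      ((comp e.depth 0 e).exec w.length ((mv .B .A : Cm (Fin (e.depth + 1))).exec w.length s0)) :=
    rfl
  rw [he]
  change ((_ : Sta (Fin (e.depth + 1))).st .B).reverse = _
  rw [g3, a2]
  simp

/-! ### Padding -/

/-- Add `|w|²` symbols. -/
def pad1 (w : List Bool) : List Bool := w ++ List.replicate (w.length * w.length) false

def padC : Cm (Fin 2) := .loop 0 (.loop 1 (psh .B false))

theorem exec_padIn (N : ℕ) (s : Sta (Fin 2)) :
    ((Cmd.loop 1 (psh .B false) : Cm (Fin 2)).exec N s).st .B =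
      List.replicate N false ++ s.st .B := by
  refine loop_rule (fun t s' => s'.st .B = List.replicate t false ++ s.st .B) ?_ ?_ ?_
  · intro t u u' h1 _ h
    rw [h1, h]
  · simp
  · intro t u _ h
    simp [psh, Cmd.exec, Op.exec, h, List.replicate_succ]

theorem exec_padC (N : ℕ) (s : Sta (Fin 2)) :
    (padC.exec N s).st .B = List.replicate (N * N) false ++ s.st .B := by
  refine loop_rule (fun t s' => s'.st .B = List.replicate (t * N) false ++ s.st .B) ?_ ?_ ?_
  · intro t u u' h1 _ h
    rw [h1, h]
  · simp
  · intro t u _ h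
    rw [exec_padIn, h, ← List.append_assoc, ← List.replicate_add]
    congr 2
    ring

theorem polyFun_pad1 : PolyFun pad1 := by
  have h := polyFun_of_cmd ioT padC (by
    refine ⟨?_, ?_, trivial⟩
    · simp [Cmd.wv, psh, Op.wv]
    · simp [Cmd.wv, psh, Op.wv])
  have e : (fun w : List Bool => ((padC.exec (w.countP ioT.cnt) (St.init ioT w)).st
      ioT.ko).reverse) = pad1 := by
    funext w
    have hcnt : w.countP ioT.cnt = w.length := by
      rw [List.countP_eq_length]
      intro a _
      rfl
    rw [hcnt]
    change ((_ : Sta (Fin 2)).st .B).reverse = _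
    rw [exec_padC]
    have hB : (St.init ioT w : Sta (Fin 2)).st .B = w.reverse := by simp [St.init, ioT]
    rw [hB]
    simp [pad1]
  rw [e] at h
  exact h

theorem polyFun_id : PolyFun (fun w : List Bool => w) := by
  have h := polyFun_of_cmd ioT (nop : Cm (Fin 2)) trivial
  have e : (fun w : List Bool => (((nop : Cm (Fin 2)).exec (w.countP ioT.cnt)
      (St.init ioT w)).st ioT.ko).reverse) = fun w => w := by
    funext w
    have hB : (St.init ioT w : Sta (Fin 2)).st .B = w.reverse := by simp [St.init, ioT]
    rw [exec_nop]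
    change ((_ : Sta (Fin 2)).st .B).reverse = _
    rw [hB]
    simp
  rw [e] at h
  exact h

theorem polyFun_pad (j : ℕ) : PolyFun (pad1^[j]) := by
  induction j with
  | zero => exact polyFun_id
  | succ j ih =>
    rw [Function.iterate_succ']
    exact polyFun_pad1.comp ih

theorem pad_prefix (j : ℕ) (w : List Bool) : ∃ rest, pad1^[j] w = w ++ rest := by
  induction j with
  | zero => exact ⟨[], by simp⟩
  | succ j ih =>
    obtain ⟨rest, h⟩ := ih
    rw [Function.iterate_succ_apply', h]
    exact ⟨_, by rw [pad1, List.append_assoc]⟩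

theorem length_pad1 (w : List Bool) : (pad1 w).length = w.length + w.length * w.length := by
  simp [pad1]

theorem pad_mul (j : ℕ) (w : List Bool) (hw : 0 < w.length) :
    2 ^ j * w.length ≤ (pad1^[j] w).length := by
  induction j with
  | zero => simp
  | succ j ih =>
    rw [Function.iterate_succ_apply', length_pad1]
    have h1 : 1 ≤ (pad1^[j] w).length := le_trans (by have := Nat.one_le_two_pow (n := j); nlinarith) ih
    rw [pow_succ]
    nlinarith

theorem pad_pow (j : ℕ) (w : List Bool) : w.length ^ (j + 1) ≤ (pad1^[j] w).length := by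
  induction j with
  | zero => simp
  | succ j ih =>
    obtain ⟨rest, hr⟩ := pad_prefix j w
    have h1 : w.length ≤ (pad1^[j] w).length := by rw [hr]; simp
    rw [Function.iterate_succ_apply', length_pad1, pow_succ]
    calc w.length ^ (j + 1) * w.length ≤ (pad1^[j] w).length * (pad1^[j] w).length :=
          Nat.mul_le_mul ih h1
      _ ≤ _ := Nat.le_add_left _ _

theorem poly_le (p : Polynomial ℕ) (n : ℕ) (hn : 1 ≤ n) :
    p.eval n ≤ p.eval 1 * n ^ p.natDegree := by
  rw [Polynomial.eval_eq_sum_range, Polynomial.eval_eq_sum_range, Finset.sum_mul]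
  apply Finset.sum_le_sum
  intro i hi
  rw [one_pow, mul_one]
  exact Nat.mul_le_mul_left _ (Nat.pow_le_pow_right hn (by
    have := Finset.mem_range.1 hi; omega))

/-- Padding beats every polynomial. -/
theorem pad_poly (p : Polynomial ℕ) : ∃ j, ∀ w : List Bool, 0 < w.length →
    p.eval w.length ≤ (pad1^[j] w).length := by
  refine ⟨p.eval 1 + p.natDegree, fun w hw => ?_⟩
  rw [Function.iterate_add_apply]
  set v := pad1^[p.natDegree] w with hv
  have h1 : w.length ^ (p.natDegree + 1) ≤ v.length := pad_pow _ w
  have h0 : 1 ≤ w.length ^ p.natDegree := Nat.one_le_pow _ _ hw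
  have h2 : w.length ^ p.natDegree ≤ v.length :=
    le_trans (Nat.pow_le_pow_right hw (Nat.le_succ _)) h1
  have h3 := pad_mul (p.eval 1) v (by omega)
  have h4 : p.eval 1 ≤ 2 ^ p.eval 1 := Nat.lt_two_pow_self.le
  calc p.eval w.length ≤ p.eval 1 * w.length ^ p.natDegree := poly_le p _ hw
    _ ≤ 2 ^ p.eval 1 * v.length := Nat.mul_le_mul h4 h2
    _ ≤ _ := h3

/-- A tree function with polynomially bounded intermediate trees is computed on codes by a
polynomial-time machine. -/
theorem tree_polyFun (e : Ex) (p : Polynomial ℕ) : ∃ F : List Bool → List Bool, PolyFun F ∧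
    ∀ x : T, e.msz x ≤ p.eval x.size → F x.code = (e.eval x).code := by
  obtain ⟨F, hF, h⟩ := ex_polyFun e
  obtain ⟨j, hj⟩ := pad_poly p
  refine ⟨F ∘ pad1^[j], hF.comp (polyFun_pad j), fun x hx => ?_⟩
  obtain ⟨rest, hr⟩ := pad_prefix j x.code
  simp only [Function.comp_apply]
  rw [hr]
  apply h
  rw [← hr]
  refine hx.trans ?_
  have := hj x.code (by rw [length_code]; exact x.size_pos)
  rwa [length_code] at this

/-! ### Input and output -/

/-- The tree of a bit. -/
def bt : Bool → T
  | false => .nil
  | true => .node .nil .nil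

/-- The tree of a symbol with two bits. -/
def symT (b c : Bool) : T := .node (bt b) (bt c)

/-- The tree of a word. -/
def wordT {Γ : Type} (b1 b2 : Γ → Bool) : List Γ → T
  | [] => .nil
  | a :: w => .node (symT (b1 a) (b2 a)) (wordT b1 b2 w)

/-- Push the code of a bit. -/
def pushBt (k : F3) : Cm (Fin 2) :=
  .seq (psh .A false) (.ite (fun b => b k) (.seq (psh .A false) (psh .A true)) nop)

def inBody : Cm (Fin 2) :=
  .seq (pp .B .g) (.seq (pp .D .h) (.seq (pushBt .h) (.seq (pushBt .g)
    (.seq (psh .A true) (psh .A true)))))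

def inC : Cm (Fin 2) := .seq (psh .A false) (.seq (.loop 0 inBody) (mv .A .C))

/-- Input convention. -/
def ioIn {Γ : Type} (b1 b2 : Γ → Bool) : IO K4 Γ where
  cnt := fun _ => true
  ini := fun k a => if k = .B then some (b1 a) else if k = .D then some (b2 a) else none
  ko := .C

/-- The tree code of a word is computed in polynomial time. -/
theorem polyFun_word {Γ : Type} [Fintype Γ] (b1 b2 : Γ → Bool) :
    PolyFun (fun w : List Γ => (wordT b1 b2 w).code) := by
  have h := polyFun_of_cmd (ioIn b1 b2) inC (by
    refine ⟨trivial, ⟨?_, ?_⟩, ?_⟩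
    · simp [inBody, pushBt, Cmd.wv, psh, pp, nop, Op.wv]
    · simp [inBody, pushBt, Cmd.WF, psh, pp, nop, Op.WF]
    · simp [mv, Cmd.WF, Op.WF])
  have e : (fun w : List Γ => ((inC.exec (w.countP (ioIn b1 b2).cnt)
      (St.init (ioIn b1 b2) w)).st (ioIn b1 b2).ko).reverse) =
        fun w : List Γ => (wordT b1 b2 w).code := by
    funext w
    have hcnt : w.countP (ioIn b1 b2).cnt = w.length := by
      rw [List.countP_eq_length]
      intro a _
      rfl
    rw [hcnt]
    set s0 : Sta (Fin 2) := St.init (ioIn b1 b2) w with hs0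
    have hB : s0.st .B = (w.map b1).reverse := by simp [hs0, St.init, ioIn]
    have hD : s0.st .D = (w.map b2).reverse := by simp [hs0, St.init, ioIn]
    have hA : s0.st .A = [] := by simp [hs0, St.init, ioIn]
    have hC : s0.st .C = [] := by simp [hs0, St.init, ioIn]
    let P : ℕ → Sta (Fin 2) → Prop := fun t s => ∃ u v : List Γ, w = u ++ v ∧ v.length = t ∧
      s.st .B = (u.map b1).reverse ∧ s.st .D = (u.map b2).reverse ∧
      s.st .A = (wordT b1 b2 v).code ∧ s.st .C = []
    have key : P w.length ((Cmd.loop 0 inBody : Cm (Fin 2)).exec w.length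
        ((psh .A false : Cm (Fin 2)).exec w.length s0)) := by
      refine loop_rule P ?_ ?_ ?_
      · rintro t s s' h1 _ ⟨u, v, g1, g2, g3, g4, g5, g6⟩
        exact ⟨u, v, g1, g2, by rw [h1, g3], by rw [h1, g4], by rw [h1, g5], by rw [h1, g6]⟩
      · refine ⟨w, [], by simp, rfl, ?_, ?_, ?_, ?_⟩
        · simp [psh, Cmd.exec, Op.exec, update, hB]
        · simp [psh, Cmd.exec, Op.exec, update, hD]
        · simp [psh, Cmd.exec, Op.exec, update, hA, wordT, code]
        · simp [psh, Cmd.exec, Op.exec, update, hC]
      · rintro t s ht ⟨u, v, g1, g2, g3, g4, g5, g6⟩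
        have hu : u ≠ [] := by
          rintro rfl
          rw [List.nil_append] at g1
          rw [g1] at ht
          omega
        obtain ⟨u', a, rfl⟩ : ∃ u' a, u = u' ++ [a] :=
          ⟨u.dropLast, u.getLast hu, (List.dropLast_append_getLast hu).symm⟩
        refine ⟨u', a :: v, by rw [g1]; simp, by simp [g2], ?_, ?_, ?_, ?_⟩
        · cases h1 : b1 a <;> cases h2 : b2 a <;>
            simp [inBody, pushBt, pp, psh, nop, Cmd.exec, Op.exec, update, g3, g4, h1, h2]
        · cases h1 : b1 a <;> cases h2 : b2 a <;>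
            simp [inBody, pushBt, pp, psh, nop, Cmd.exec, Op.exec, update, g3, g4, h1, h2]
        · cases h1 : b1 a <;> cases h2 : b2 a <;>
            simp [inBody, pushBt, pp, psh, nop, Cmd.exec, Op.exec, update, g3, g4, g5, h1, h2,
              wordT, symT, bt, code]
        · cases h1 : b1 a <;> cases h2 : b2 a <;>
            simp [inBody, pushBt, pp, psh, nop, Cmd.exec, Op.exec, update, g3, g4, g6, h1, h2]
    obtain ⟨u, v, g1, g2, g3, g4, g5, g6⟩ := key
    have hu : u = [] := by
      have := congrArg List.length g1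
      rw [List.length_append, g2] at this
      exact List.length_eq_zero_iff.1 (by omega)
    subst hu
    rw [List.nil_append] at g1
    subst g1
    have he : inC.exec w.length s0 = (mv .A .C : Cm (Fin 2)).exec w.length
        ((Cmd.loop 0 inBody : Cm (Fin 2)).exec w.length
        ((psh .A false : Cm (Fin 2)).exec w.length s0)) := rfl
    rw [he]
    change ((_ : Sta (Fin 2)).st .C).reverse = _
    simp [mv, Cmd.exec, Op.exec, update] at g5 g6 ⊢
    rw [g5, g6]
    simp
  rw [e] at h
  exact h

/-- Output convention: the first symbol. -/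
def ioOut : IO K4 Bool where
  cnt := fun _ => true
  ini := fun k a => if k = .B then some a else none
  ko := .C

def outC : Cm (Fin 2) :=
  .seq (mv .B .A) (.seq (pp .A .g) (.op (.push .C fun b => b .g)))

theorem polyFun_head : PolyFun (fun w : List Bool => [w.headD false]) := by
  have h := polyFun_of_cmd ioOut outC (by
    refine ⟨?_, ?_⟩ <;> simp [mv, pp, Cmd.WF, Op.WF])
  have e : (fun w : List Bool => ((outC.exec (w.countP ioOut.cnt) (St.init ioOut w)).st
      ioOut.ko).reverse) = fun w => [w.headD false] := by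
    funext w
    set s0 : Sta (Fin 2) := St.init ioOut w with hs0
    have hB : s0.st .B = w.reverse := by simp [hs0, St.init, ioOut]
    have hA : s0.st .A = [] := by simp [hs0, St.init, ioOut]
    have hC : s0.st .C = [] := by simp [hs0, St.init, ioOut]
    change ((_ : Sta (Fin 2)).st .C).reverse = _
    simp [outC, mv, pp, Cmd.exec, Op.exec, update, hA, hB, hC]
  rw [e] at h
  exact h

/-- A decision made by a tree expression is made by a polynomial-time machine. -/
theorem decide_polyFun {Γ : Type} [Fintype Γ] (b1 b2 : Γ → Bool) (e : Ex) (p : Polynomial ℕ) :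
    ∃ F : List Γ → List Bool, PolyFun F ∧ (∀ w, ∃ b, F w = [b]) ∧
      ∀ w, e.msz (wordT b1 b2 w) ≤ p.eval (wordT b1 b2 w).size →
        F w = [decide (e.eval (wordT b1 b2 w) ≠ .nil)] := by
  obtain ⟨G, hG, h⟩ := tree_polyFun e p
  refine ⟨_, polyFun_head.comp (hG.comp (polyFun_word b1 b2)), fun w => ⟨_, rfl⟩, fun w hw => ?_⟩
  simp only [Function.comp_apply]
  rw [h _ hw]
  cases e.eval (wordT b1 b2 w) <;> simp [code]

end Pool.Agent.Lib.PolyTree
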