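import Pool.Agent.Lib.PolyTM.Machine

/-!
# Polynomial-time functions on binary trees: the core

Binary trees `T`, a small algebra `Ex` of functions on trees, its semantics `Ex.eval`, and the
largest size `Ex.msz` of a tree met during an evaluation. The size of the whole machine is in
`Compile`.
-/

namespace Pool.Agent.Lib.PolyTree

/-- Binary trees. -/
inductive T
  | nil
  | node (l r : T)
  deriving DecidableEq

namespace T

/-- Prefix code of a tree. -/
def code : T → List Bool
  | nil => [false]
  | node l r => true :: (code l ++ code r)

/-- Number of nodes and leaves. -/
def size : T → ℕ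
  | nil => 1
  | node l r => size l + size r + 1

/-- Length of the right spine. -/
def len : T → ℕ
  | nil => 0
  | node _ r => len r + 1

def left : T → T
  | nil => nil
  | node l _ => l

def right : T → T
  | nil => nil
  | node _ r => r

/-- Unary numbers. -/
def num : ℕ → T
  | 0 => nil
  | n + 1 => node nil (num n)

@[simp] theorem length_code (t : T) : t.code.length = t.size := by
  induction t with
  | nil => rfl
  | node l r ih1 ih2 => simp [code, size, ih1, ih2]

theorem size_pos (t : T) : 0 < t.size := by cases t <;> simp [size]

theorem len_le_size (t : T) : t.len ≤ t.size := by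
  induction t with
  | nil => simp [len]
  | node l r ih1 ih2 => simp only [len, size]; omega

@[simp] theorem size_num (n : ℕ) : (num n).size = 2 * n + 1 := by
  induction n with
  | zero => rfl
  | succ n ih => simp only [num, size, ih]; ring

@[simp] theorem len_num (n : ℕ) : (num n).len = n := by
  induction n with
  | zero => rfl
  | succ n ih => simp only [num, len, ih]

theorem size_left_le (t : T) : t.left.size ≤ t.size := by
  cases t <;> simp [left, size]; omega

theorem size_right_le (t : T) : t.right.size ≤ t.size := by
  cases t <;> simp [right, size]; omega

theorem code_append_inj (x : T) : ∀ (y : T) (u v : List Bool), x.code ++ u = y.code ++ v →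
    x = y ∧ u = v := by
  induction x with
  | nil =>
    intro y u v h
    cases y with
    | nil => simpa [code] using h
    | node l r => simp [code] at h
  | node l r ih1 ih2 =>
    intro y u v h
    cases y with
    | nil => simp [code] at h
    | node l' r' =>
      simp only [code, List.cons_append, List.append_assoc, List.cons.injEq, true_and] at h
      obtain ⟨h1, h2⟩ := ih1 _ _ _ h
      obtain ⟨h3, h4⟩ := ih2 _ _ _ h2
      exact ⟨by rw [h1, h3], h4⟩

theorem code_inj {x y : T} (h : x.code = y.code) : x = y :=
  (code_append_inj x y [] [] (by rw [h])).1

theorem num_inj {m n : ℕ} (h : num m = num n) : m = n := by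
  have := congrArg len h
  simpa using this

end T

open T

/-- Expressions for functions on trees. -/
inductive Ex
  | id
  | nil
  | left
  | right
  | sz
  | eq
  | pair (a b : Ex)
  | comp (a b : Ex)
  | ite (c a b : Ex)
  | iter (a : Ex)

namespace Ex

/-- Semantics. -/
def eval : Ex → T → T
  | .id, x => x
  | .nil, _ => .nil
  | .left, x => x.left
  | .right, x => x.right
  | .sz, x => num x.size
  | .eq, .nil => .nil
  | .eq, .node l r => if l = r then .node .nil .nil else .nil
  | .pair a b, x => .node (a.eval x) (b.eval x)
  | .comp a b, x => a.eval (b.eval x)
  | .ite c a b, x => if c.eval x = .nil then b.eval x else a.eval x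
  | .iter _, .nil => .nil
  | .iter a, .node n s => (a.eval)^[n.len] s

/-- An upper bound on the sizes of all trees met. -/
def msz : Ex → T → ℕ
  | .id, x => x.size
  | .nil, x => x.size
  | .left, x => x.size
  | .right, x => x.size
  | .sz, x => 3 * x.size
  | .eq, x => 3 * x.size
  | .pair a b, x => a.msz x + b.msz x + 1
  | .comp a b, x => max (b.msz x) (a.msz (b.eval x))
  | .ite c a b, x => max (c.msz x) (if c.eval x = .nil then b.msz x else a.msz x)
  | .iter _, .nil => 1
  | .iter a, .node n s =>
      max ((T.node n s).size) ((Finset.range n.len).sup fun t => a.msz ((a.eval)^[t] s))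

theorem size_le_msz (e : Ex) (x : T) : x.size ≤ e.msz x := by
  induction e generalizing x with
  | id => exact le_rfl
  | nil => exact le_rfl
  | left => exact le_rfl
  | right => exact le_rfl
  | sz => simp only [msz]; omega
  | eq => simp only [msz]; omega
  | pair a b iha ihb => simp only [msz]; have := iha x; omega
  | comp a b iha ihb => exact (ihb x).trans (le_max_left _ _)
  | ite c a b ihc iha ihb => exact (ihc x).trans (le_max_left _ _)
  | iter a iha =>
    cases x with
    | nil => exact le_rfl
    | node n s => exact le_max_left _ _

theorem size_eval_le_msz (e : Ex) (x : T) : (e.eval x).size ≤ e.msz x := by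
  induction e generalizing x with
  | id => exact le_rfl
  | nil => exact x.size_pos
  | left => exact size_left_le x
  | right => exact size_right_le x
  | sz => simp only [msz, eval, size_num]; have := x.size_pos; omega
  | eq =>
    cases x with
    | nil => simp [eval, msz, size]
    | node l r =>
      simp only [eval, msz]
      split
      · simp only [size]; omega
      · simp only [size]; omega
  | pair a b iha ihb =>
    simp only [msz, eval, size]; have := iha x; have := ihb x; omega
  | comp a b iha ihb => exact (iha _).trans (le_max_right _ _)
  | ite c a b ihc iha ihb =>
    simp only [eval, msz]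
    split
    · exact (ihb x).trans (le_max_right _ _)
    · exact (iha x).trans (le_max_right _ _)
  | iter a iha =>
    cases x with
    | nil => exact le_rfl
    | node n s =>
      simp only [eval, msz]
      cases h : n.len with
      | zero => simp [size]; omega
      | succ m =>
        rw [Function.iterate_succ_apply']
        refine le_trans (iha _) (le_trans ?_ (le_max_right _ _))
        exact Finset.le_sup (f := fun t => a.msz ((a.eval)^[t] s)) (by simp)

theorem msz_iter_le {a : Ex} {n s : T} {N : ℕ} (h : (iter a).msz (.node n s) ≤ N) {t : ℕ}
    (ht : t < n.len) : a.msz ((a.eval)^[t] s) ≤ N := by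
  refine le_trans (le_trans ?_ (le_max_right _ _)) h
  exact Finset.le_sup (f := fun t => a.msz ((a.eval)^[t] s)) (Finset.mem_range.2 ht)

end Ex

end Pool.Agent.Lib.PolyTree
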