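import Pool.Agent.Lib.PolyTree.Machine

/-!
# Polynomial-time functions between encoded types

`PF f`: the function `f` between types with a tree encoding is computed by a tree expression all of
whose intermediate trees have polynomial size (hence by a polynomial-time machine, see
`Pool.Agent.Lib.PolyTree.Machine`). `PB f`: the numerical function `f` is bounded by a polynomial
in the size of the encoding of its argument.
-/

namespace Pool.Agent.Lib.PolyTree

set_option linter.unusedSectionVars false

open Function T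
open Pool.Agent.Lib.PolyTM (PolyFun poly_mono)

/-- Types whose elements are encoded by trees. -/
class TEnc (α : Type) where
  enc : α → T
  inj : Function.Injective enc

export TEnc (enc)

/-- Size of the encoding. -/
def tsz {α : Type} [TEnc α] (a : α) : ℕ := (enc a).size

theorem tsz_pos {α : Type} [TEnc α] (a : α) : 0 < tsz a := size_pos _

instance : TEnc T := ⟨id, Function.injective_id⟩

instance : TEnc Unit := ⟨fun _ => .nil, fun _ _ _ => rfl⟩

instance : TEnc Bool := ⟨bt, by intro a b h; cases a <;> cases b <;> simp_all [bt]⟩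

instance : TEnc ℕ := ⟨num, fun _ _ h => num_inj h⟩

instance {α β : Type} [TEnc α] [TEnc β] : TEnc (α × β) :=
  ⟨fun p => .node (enc p.1) (enc p.2), by
    rintro ⟨a, b⟩ ⟨c, d⟩ h
    simp only [T.node.injEq] at h
    rw [TEnc.inj h.1, TEnc.inj h.2]⟩

instance {α : Type} [TEnc α] : TEnc (Option α) :=
  ⟨fun o => o.elim .nil fun a => .node .nil (enc a), by
    rintro (_ | a) (_ | b) h
    · rfl
    · simp at h
    · simp at h
    · simp only [Option.elim_some, T.node.injEq, true_and] at h
      rw [TEnc.inj h]⟩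

/-- Encoding of lists. -/
def encL {α : Type} [TEnc α] : List α → T
  | [] => .nil
  | a :: l => .node (enc a) (encL l)

theorem encL_inj {α : Type} [TEnc α] : ∀ l m : List α, encL l = encL m → l = m
  | [], [], _ => rfl
  | [], _ :: _, h => by simp [encL] at h
  | _ :: _, [], h => by simp [encL] at h
  | a :: l, b :: m, h => by
    simp only [encL, T.node.injEq] at h
    rw [TEnc.inj h.1, encL_inj l m h.2]

instance {α : Type} [TEnc α] : TEnc (List α) := ⟨encL, fun l m h => encL_inj l m h⟩

instance {α β : Type} [TEnc α] [TEnc β] : TEnc (α ⊕ β) :=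
  ⟨fun s => s.elim (fun a => .node .nil (enc a)) (fun b => .node (.node .nil .nil) (enc b)), by
    rintro (a | a) (b | b) h
    · simp only [Sum.elim_inl, T.node.injEq, true_and] at h
      rw [TEnc.inj h]
    · simp at h
    · simp at h
    · simp only [Sum.elim_inr, T.node.injEq, true_and] at h
      rw [TEnc.inj h]⟩

instance {n : ℕ} : TEnc (Fin n) := ⟨fun i => num i.val, fun _ _ h => Fin.ext (num_inj h)⟩

instance {α : Type} [TEnc α] {p : α → Prop} : TEnc {a // p a} :=
  ⟨fun x => enc x.val, fun _ _ h => Subtype.ext (TEnc.inj h)⟩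

section Sizes
variable {α β : Type} [TEnc α] [TEnc β]

@[simp] theorem enc_tree (t : T) : (enc t : T) = t := rfl
@[simp] theorem enc_unit (u : Unit) : enc u = .nil := rfl
@[simp] theorem enc_false : enc false = .nil := rfl
@[simp] theorem enc_true : enc true = .node .nil .nil := rfl
@[simp] theorem enc_zero : enc (0 : ℕ) = .nil := rfl
@[simp] theorem enc_succ (n : ℕ) : enc (n + 1) = .node .nil (enc n) := rfl
theorem enc_nat (n : ℕ) : enc n = num n := rfl
@[simp] theorem enc_pair (p : α × β) : enc p = .node (enc p.1) (enc p.2) := rfl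
@[simp] theorem enc_none : enc (none : Option α) = .nil := rfl
@[simp] theorem enc_some (a : α) : enc (some a) = .node .nil (enc a) := rfl
@[simp] theorem enc_lnil : enc ([] : List α) = .nil := rfl
@[simp] theorem enc_lcons (a : α) (l : List α) : enc (a :: l) = .node (enc a) (enc l) := rfl
@[simp] theorem enc_inl (a : α) : enc (Sum.inl a : α ⊕ β) = .node .nil (enc a) := rfl
@[simp] theorem enc_inr (b : β) : enc (Sum.inr b : α ⊕ β) = .node (.node .nil .nil) (enc b) := rfl
theorem enc_fin {n : ℕ} (i : Fin n) : enc i = enc i.val := rfl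
theorem enc_sub {p : α → Prop} (x : {a // p a}) : enc x = enc x.val := rfl

@[simp] theorem tsz_unit (u : Unit) : tsz u = 1 := rfl
@[simp] theorem tsz_false : tsz false = 1 := rfl
@[simp] theorem tsz_true : tsz true = 3 := rfl
theorem tsz_bool_le (b : Bool) : tsz b ≤ 3 := by cases b <;> simp
@[simp] theorem tsz_nat (n : ℕ) : tsz n = 2 * n + 1 := size_num n
@[simp] theorem tsz_pair (p : α × β) : tsz p = tsz p.1 + tsz p.2 + 1 := rfl
@[simp] theorem tsz_none : tsz (none : Option α) = 1 := rfl
@[simp] theorem tsz_some (a : α) : tsz (some a) = tsz a + 2 := by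
  simp only [tsz, enc_some, size]; omega
@[simp] theorem tsz_nil : tsz ([] : List α) = 1 := rfl
@[simp] theorem tsz_cons (a : α) (l : List α) : tsz (a :: l) = tsz a + tsz l + 1 := rfl
@[simp] theorem tsz_inl (a : α) : tsz (Sum.inl a : α ⊕ β) = tsz a + 2 := by
  simp only [tsz, enc_inl, size]; omega
@[simp] theorem tsz_inr (b : β) : tsz (Sum.inr b : α ⊕ β) = tsz b + 4 := by
  simp only [tsz, enc_inr, size]; omega
theorem tsz_fin {n : ℕ} (i : Fin n) : tsz i = 2 * i.val + 1 := size_num _
theorem tsz_sub {p : α → Prop} (x : {a // p a}) : tsz x = tsz x.val := rfl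

theorem tsz_append (l m : List α) : tsz (l ++ m) + 1 = tsz l + tsz m := by
  induction l with
  | nil => simp; omega
  | cons a l ih => simp only [List.cons_append, tsz_cons]; omega

theorem tsz_append_le (l m : List α) : tsz (l ++ m) ≤ tsz l + tsz m := by
  have := tsz_append l m; omega

theorem tsz_reverse (l : List α) : tsz l.reverse = tsz l := by
  induction l with
  | nil => rfl
  | cons a l ih =>
    have := tsz_append l.reverse [a]
    simp only [List.reverse_cons, tsz_cons, tsz_nil] at *
    omega

theorem length_lt_tsz (l : List α) : 2 * l.length + 1 ≤ tsz l := by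
  induction l with
  | nil => simp
  | cons a l ih =>
    have := tsz_pos a
    simp only [List.length_cons, tsz_cons]
    omega

theorem tsz_eq_sum (l : List α) : tsz l = (l.map fun a => tsz a + 1).sum + 1 := by
  induction l with
  | nil => rfl
  | cons a l ih => simp only [tsz_cons, List.map_cons, List.sum_cons, ih]; omega

theorem tsz_mem {a : α} {l : List α} (h : a ∈ l) : tsz a < tsz l := by
  induction l with
  | nil => simp at h
  | cons b l ih =>
    rw [tsz_cons]
    rcases List.mem_cons.1 h with rfl | h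
    · omega
    · have := ih h; omega

theorem tsz_sublist {l m : List α} (h : l.Sublist m) : tsz l ≤ tsz m := by
  induction h with
  | slnil => exact le_rfl
  | cons a _ ih => rw [tsz_cons]; omega
  | cons_cons a _ ih => rw [tsz_cons, tsz_cons]; omega

/-- A list with `n` elements of size at most `b`. -/
theorem tsz_list_le {l : List α} {n b : ℕ} (hl : l.length ≤ n) (hb : ∀ a ∈ l, tsz a ≤ b) :
    tsz l ≤ n * (b + 1) + 1 := by
  rw [tsz_eq_sum]
  have : (l.map fun a => tsz a + 1).sum ≤ l.length * (b + 1) := by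
    clear hl
    induction l with
    | nil => simp
    | cons a l ih =>
      have h1 := hb a (by simp)
      have h2 := ih (fun x hx => hb x (by simp [hx]))
      simp only [List.map_cons, List.sum_cons, List.length_cons]
      nlinarith
  nlinarith

end Sizes

/-! ### Polynomial bounds -/

section PB
variable {α β : Type} [TEnc α] [TEnc β]

/-- Bounded by a polynomial in the size of the argument. -/
@[fun_prop]
def PB (f : α → ℕ) : Prop := ∃ p : Polynomial ℕ, ∀ a, f a ≤ p.eval (tsz a)

theorem PB.of_le {f g : α → ℕ} (hg : PB g) (h : ∀ a, f a ≤ g a) : PB f := by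
  obtain ⟨p, hp⟩ := hg
  exact ⟨p, fun a => (h a).trans (hp a)⟩

@[fun_prop]
theorem PB.const (n : ℕ) : PB fun _ : α => n := ⟨(n : Polynomial ℕ), fun _ => by simp⟩

@[fun_prop]
theorem PB.add {f g : α → ℕ} (hf : PB f) (hg : PB g) : PB fun a => f a + g a := by
  obtain ⟨p, hp⟩ := hf
  obtain ⟨q, hq⟩ := hg
  exact ⟨p + q, fun a => by simpa using Nat.add_le_add (hp a) (hq a)⟩

@[fun_prop]
theorem PB.mul {f g : α → ℕ} (hf : PB f) (hg : PB g) : PB fun a => f a * g a := by
  obtain ⟨p, hp⟩ := hf
  obtain ⟨q, hq⟩ := hg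
  exact ⟨p * q, fun a => by simpa using Nat.mul_le_mul (hp a) (hq a)⟩

@[fun_prop]
theorem PB.sub {f g : α → ℕ} (hf : PB f) : PB fun a => f a - g a :=
  hf.of_le fun _ => Nat.sub_le _ _

@[fun_prop]
theorem PB.pow {f : α → ℕ} (hf : PB f) (k : ℕ) : PB fun a => f a ^ k := by
  obtain ⟨p, hp⟩ := hf
  exact ⟨p ^ k, fun a => by simpa using Nat.pow_le_pow_left (hp a) k⟩

@[fun_prop]
theorem PB.max {f g : α → ℕ} (hf : PB f) (hg : PB g) : PB fun a => Max.max (f a) (g a) :=
  (hf.add hg).of_le fun a => by omega

@[fun_prop]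
theorem PB.min {f g : α → ℕ} (hf : PB f) (hg : PB g) : PB fun a => Min.min (f a) (g a) :=
  (hf.add hg).of_le fun a => by omega

@[fun_prop]
theorem PB.tsz_self : PB fun a : α => tsz a := ⟨Polynomial.X, fun a => by simp⟩

theorem PB.comp' {f : β → ℕ} (hf : PB f) {g : α → β} (hg : PB fun a => tsz (g a)) :
    PB fun a => f (g a) := by
  obtain ⟨p, hp⟩ := hf
  obtain ⟨q, hq⟩ := hg
  refine ⟨p.comp q, fun a => (hp _).trans ?_⟩
  rw [Polynomial.eval_comp]
  exact poly_mono p (hq a)

/-- A polynomial of a bounded function. -/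
@[fun_prop]
theorem PB.eval (p : Polynomial ℕ) {f : α → ℕ} (hf : PB f) : PB fun a => p.eval (f a) := by
  obtain ⟨q, hq⟩ := hf
  refine ⟨p.comp q, fun a => ?_⟩
  rw [Polynomial.eval_comp]
  exact poly_mono p (hq a)

end PB

/-! ### Polynomial-time functions -/

section PF
variable {α β γ δ σ : Type} [TEnc α] [TEnc β] [TEnc γ] [TEnc δ] [TEnc σ]

/-- Polynomial-time functions. -/
@[fun_prop]
def PF (f : α → β) : Prop :=
  ∃ e : Ex, (∀ a, e.eval (enc a) = enc (f a)) ∧ PB fun a : α => e.msz (enc a)

theorem PF.of_eq {f g : α → β} (hf : PF f) (h : ∀ a, f a = g a) : PF g := by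
  rwa [← funext h]

/-- The values of a polynomial-time function have polynomial size. -/
theorem PF.tsz_le {f : α → β} (hf : PF f) : PB fun a => tsz (f a) := by
  obtain ⟨e, he, hb⟩ := hf
  refine hb.of_le fun a => ?_
  change (enc (f a)).size ≤ _
  rw [← he]
  exact e.size_eval_le_msz _

@[fun_prop]
theorem PB.tsz' {f : α → β} (hf : PF f) : PB fun a => tsz (f a) := hf.tsz_le

@[fun_prop]
theorem PB.nat {f : α → ℕ} (hf : PF f) : PB fun a => f a :=
  hf.tsz_le.of_le fun a => by rw [tsz_nat]; omega

@[fun_prop]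
theorem PB.length {f : α → List β} (hf : PF f) : PB fun a => (f a).length :=
  hf.tsz_le.of_le fun a => by have := length_lt_tsz (f a); omega

/-- Composition of a bound with a polynomial-time function. -/
theorem PB.comp {f : β → ℕ} (hf : PB f) {g : α → β} (hg : PF g) : PB fun a => f (g a) :=
  hf.comp' hg.tsz_le

@[fun_prop]
theorem PF.id' : PF fun a : α => a := ⟨.id, fun _ => rfl, PB.tsz_self⟩

/-- The expression of a constant. -/
def constE : T → Ex
  | .nil => .nil
  | .node l r => .pair (constE l) (constE r)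

theorem eval_constE (t x : T) : (constE t).eval x = t := by
  induction t with
  | nil => rfl
  | node l r ih1 ih2 => simp [constE, Ex.eval, ih1, ih2]

theorem msz_constE (t x : T) : (constE t).msz x ≤ t.size * x.size + t.size := by
  induction t with
  | nil => simp [constE, Ex.msz, size]
  | node l r ih1 ih2 =>
    simp only [constE, Ex.msz, size]
    nlinarith [x.size_pos]

@[fun_prop]
theorem PF.const (b : β) : PF fun _ : α => b := by
  refine ⟨constE (enc b), fun a => eval_constE _ _, ?_⟩
  refine PB.of_le (g := fun a => tsz b * tsz a + tsz b) ?_ fun a => msz_constE _ _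
  exact ((PB.const _).mul PB.tsz_self).add (PB.const _)

@[fun_prop]
theorem PF.comp {f : β → γ} {g : α → β} (hf : PF f) (hg : PF g) : PF fun a => f (g a) := by
  have hg' := hg
  obtain ⟨e, he, hb⟩ := hf
  obtain ⟨d, hd, hb'⟩ := hg
  refine ⟨.comp e d, fun a => by simp only [Ex.eval, hd, he], ?_⟩
  refine PB.of_le (g := fun a => d.msz (enc a) + e.msz (enc (g a))) (hb'.add (hb.comp hg')) ?_
  intro a
  simp only [Ex.msz, hd]
  omega

@[fun_prop]
theorem PF.pair {f : α → β} {g : α → γ} (hf : PF f) (hg : PF g) : PF fun a => (f a, g a) := by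
  obtain ⟨e, he, hb⟩ := hf
  obtain ⟨d, hd, hb'⟩ := hg
  refine ⟨.pair e d, fun a => by simp only [Ex.eval, he, hd, enc_pair], ?_⟩
  refine PB.of_le (g := fun a => e.msz (enc a) + d.msz (enc a) + 1)
    ((hb.add hb').add (PB.const 1)) ?_
  intro a
  exact le_rfl

@[fun_prop]
theorem PF.fst {f : α → β × γ} (hf : PF f) : PF fun a => (f a).1 :=
  PF.comp (f := Prod.fst) ⟨.left, fun _ => rfl, PB.tsz_self⟩ hf

@[fun_prop]
theorem PF.snd {f : α → β × γ} (hf : PF f) : PF fun a => (f a).2 :=
  PF.comp (f := Prod.snd) ⟨.right, fun _ => rfl, PB.tsz_self⟩ hf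

/-- Change of representation: two types with the same trees. -/
theorem PF.cast {f : α → β} (h : ∀ a, enc (f a) = enc a) : PF f :=
  ⟨.id, fun a => (h a).symm, PB.tsz_self⟩

/-- A tree-valued function. -/
theorem PF.toTree {f : α → β} : PF f ↔ PF fun a => enc (f a) := Iff.rfl

/-! ### Branching -/

/-- Branching at the tree level. -/
theorem PF.treeIte {c : α → T} {f g : α → β} (hc : PF c) (hf : PF f) (hg : PF g) :
    PF fun a => if c a = .nil then g a else f a := by
  obtain ⟨e, he, hb⟩ := hc
  obtain ⟨d, hd, hb'⟩ := hf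
  obtain ⟨k, hk, hb''⟩ := hg
  refine ⟨.ite e d k, fun a => ?_, ?_⟩
  · simp only [Ex.eval, he, hd, hk, enc_tree]
    split <;> rfl
  · refine PB.of_le (g := fun a => e.msz (enc a) + (d.msz (enc a) + k.msz (enc a)))
      (hb.add (hb'.add hb'')) ?_
    intro a
    simp only [Ex.msz]
    split <;> omega

@[fun_prop]
theorem PF.cond {c : α → Bool} {f g : α → β} (hc : PF c) (hf : PF f) (hg : PF g) :
    PF fun a => cond (c a) (f a) (g a) := by
  refine (PF.treeIte (PF.toTree.1 hc) hf hg).of_eq fun a => ?_
  cases h : c a <;> simp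

@[fun_prop]
theorem PF.ite {c : α → Prop} [DecidablePred c] {f g : α → β} (hc : PF fun a => decide (c a))
    (hf : PF f) (hg : PF g) : PF fun a => if c a then f a else g a := by
  refine (PF.cond hc hf hg).of_eq fun a => ?_
  by_cases h : c a <;> simp [h]

@[fun_prop]
theorem PF.not {c : α → Bool} (hc : PF c) : PF fun a => !(c a) := by
  refine (PF.cond hc (PF.const false) (PF.const true)).of_eq fun a => ?_
  cases c a <;> rfl

@[fun_prop]
theorem PF.and {c d : α → Bool} (hc : PF c) (hd : PF d) : PF fun a => (c a && d a) := by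
  refine (PF.cond hc hd (PF.const false)).of_eq fun a => ?_
  cases c a <;> rfl

@[fun_prop]
theorem PF.or {c d : α → Bool} (hc : PF c) (hd : PF d) : PF fun a => (c a || d a) := by
  refine (PF.cond hc (PF.const true) hd).of_eq fun a => ?_
  cases c a <;> rfl

@[fun_prop]
theorem PF.xor {c d : α → Bool} (hc : PF c) (hd : PF d) : PF fun a => (c a ^^ d a) := by
  refine (PF.cond hc (PF.not hd) hd).of_eq fun a => ?_
  cases c a <;> simp

@[fun_prop]
theorem PF.decide_not {c : α → Prop} [DecidablePred c] (hc : PF fun a => decide (c a)) :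
    PF fun a => decide (¬ c a) := by
  refine (PF.not hc).of_eq fun a => ?_
  simp

@[fun_prop]
theorem PF.decide_and {c d : α → Prop} [DecidablePred c] [DecidablePred d]
    (hc : PF fun a => decide (c a)) (hd : PF fun a => decide (d a)) :
    PF fun a => decide (c a ∧ d a) := by
  refine (PF.and hc hd).of_eq fun a => ?_
  simp

@[fun_prop]
theorem PF.decide_or {c d : α → Prop} [DecidablePred c] [DecidablePred d]
    (hc : PF fun a => decide (c a)) (hd : PF fun a => decide (d a)) :
    PF fun a => decide (c a ∨ d a) := by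
  refine (PF.or hc hd).of_eq fun a => ?_
  simp

@[fun_prop]
theorem PF.decide_bool {c : α → Bool} (hc : PF c) : PF fun a => decide (c a = true) := by
  refine hc.of_eq fun a => ?_
  simp

/-- Equality tests. -/
@[fun_prop]
theorem PF.decide_eq [DecidableEq β] {f g : α → β} (hf : PF f) (hg : PF g) :
    PF fun a => decide (f a = g a) := by
  have h : PF fun p : T × T => decide (p.1 = p.2) := by
    refine ⟨.eq, fun p => ?_, ?_⟩
    · by_cases h : p.1 = p.2 <;> simp [Ex.eval, h]
    · refine PB.of_le (g := fun p => 3 * tsz p) (by fun_prop) fun p => le_rfl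
  refine (h.comp (PF.pair (PF.toTree.1 hf) (PF.toTree.1 hg))).of_eq fun a => ?_
  simp only
  rw [decide_eq_decide]
  exact ⟨fun h => TEnc.inj h, fun h => by rw [h]⟩

/-- Numbers as sizes. -/
@[fun_prop]
theorem PF.tsz' {f : α → β} (hf : PF f) : PF fun a => tsz (f a) :=
  PF.comp (f := fun b : β => tsz b)
    ⟨.sz, fun _ => rfl, PB.of_le (g := fun b => 3 * tsz b) (by fun_prop)
      fun _ => le_rfl⟩ hf

/-! ### Iteration -/

/-- Iteration along the right spine of a tree. -/
theorem PF.iterTree {f : σ → σ} {n : α → T} {s : α → σ} (hf : PF f) (hn : PF n) (hs : PF s)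
    {B : α → ℕ} (hB : PB B) (h : ∀ a, ∀ t < (n a).len, tsz (f^[t] (s a)) ≤ B a) :
    PF fun a => f^[(n a).len] (s a) := by
  have hns := hn.pair hs
  obtain ⟨e, he, ⟨q, hq⟩⟩ := hf
  obtain ⟨d, hd, hb'⟩ := hns
  have hit : ∀ (t : ℕ) (x : σ), (e.eval)^[t] (enc x) = enc (f^[t] x) := by
    intro t
    induction t with
    | zero => intro x; rfl
    | succ t ih => intro x; rw [iterate_succ_apply, iterate_succ_apply, he, ih]
  refine ⟨.comp (.iter e) d, fun a => ?_, ?_⟩
  · simp only [Ex.eval, hd, enc_pair, enc_tree]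
    exact hit _ _
  · refine PB.of_le (g := fun a => d.msz (enc a) + q.eval (B a)) (hb'.add (hB.eval q)) fun a => ?_
    simp only [Ex.msz, hd, enc_pair, enc_tree]
    have h1 : (T.node (n a) (enc (s a))).size ≤ d.msz (enc a) := by
      have := d.size_eval_le_msz (enc a)
      rw [hd] at this
      exact this
    have h2 : ((Finset.range (n a).len).sup fun t => e.msz ((e.eval)^[t] (enc (s a)))) ≤
        q.eval (B a) := by
      apply Finset.sup_le
      intro t ht
      rw [hit]
      exact (hq _).trans (poly_mono q (h a t (Finset.mem_range.1 ht)))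
    omega

/-- Iteration. -/
theorem PF.iterate {f : σ → σ} {n : α → ℕ} {s : α → σ} (hf : PF f) (hn : PF n) (hs : PF s)
    {B : α → ℕ} (hB : PB B) (h : ∀ a, ∀ t < n a, tsz (f^[t] (s a)) ≤ B a) :
    PF fun a => f^[n a] (s a) := by
  refine (PF.iterTree (n := fun a => enc (n a)) hf (PF.toTree.1 hn) hs hB ?_).of_eq fun a => ?_
  · intro a t ht
    exact h a t (by simpa [enc_nat] using ht)
  · simp [enc_nat]

/-- Iteration with a parameter. -/
theorem PF.iterate' {f : α → σ → σ} {n : α → ℕ} {s : α → σ}
    (hf : PF fun p : α × σ => f p.1 p.2) (hn : PF n) (hs : PF s)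
    {B : α → ℕ} (hB : PB B) (h : ∀ a, ∀ t < n a, tsz ((f a)^[t] (s a)) ≤ B a) :
    PF fun a => (f a)^[n a] (s a) := by
  have key : ∀ t a s, (fun p : α × σ => (p.1, f p.1 p.2))^[t] (a, s) = (a, (f a)^[t] s) := by
    intro t a
    induction t with
    | zero => intro s; rfl
    | succ t ih => intro s; rw [iterate_succ_apply, ih, iterate_succ_apply]
  have h1 : PF fun a => ((fun p : α × σ => (p.1, f p.1 p.2))^[n a] (a, s a)).2 := by
    refine PF.snd (PF.iterate (B := fun a => tsz a + B a + 1)
      (by fun_prop) hn (by fun_prop) (by fun_prop) ?_)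
    intro a t ht
    rw [key, tsz_pair]
    have := h a t ht
    simp only
    omega
  refine h1.of_eq fun a => ?_
  rw [key]

end PF

end Pool.Agent.Lib.PolyTree
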